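import Pool.Agent.CHF.Defs

open Finset

namespace Pool.CHF

open Pool.CTS

/-! ## Module Cnt (size 2): steps of a tour inside a proper subgroup
Every coset Q of K is entered at least once: there is i with f (i+1) ∈ Q, f i ∉ Q (otherwise, going backwards, all f i ∈ Q). This is an injective map
from the cosets to {i : f (i+1) - f i ∉ K}. Part 2: if there are exactly `index` such steps then the entry of each coset is unique, and also the exit. -/
private theorem Cnt_all {n : ℕ} [NeZero n] {P : ZMod n → Prop} (i₀ : ZMod n) (h0 : P i₀)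
    (hs : ∀ i, P i → P (i + 1)) : ∀ i, P i := by
  have h1 : ∀ k : ℕ, P (i₀ + k) := by
    intro k
    induction k with
    | zero => simpa using h0
    | succ k ih =>
      have := hs _ ih
      rw [Nat.cast_succ, ← add_assoc]
      exact this
  intro i
  have h2 := h1 (i - i₀).val
  rw [ZMod.natCast_zmod_val] at h2
  rwa [add_sub_cancel] at h2

private theorem Cnt_all' {n : ℕ} [NeZero n] {P : ZMod n → Prop} (i₀ : ZMod n) (h0 : P i₀)
    (hs : ∀ i, P (i + 1) → P i) : ∀ i, P i := by
  have h1 : ∀ k : ℕ, P (i₀ - k) := by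
    intro k
    induction k with
    | zero => simpa using h0
    | succ k ih =>
      apply hs
      have : i₀ - ((k + 1 : ℕ) : ZMod n) + 1 = i₀ - k := by push_cast; ring
      rw [this]
      exact ih
  intro i
  have h2 := h1 (i₀ - i).val
  rw [ZMod.natCast_zmod_val] at h2
  rwa [sub_sub_cancel] at h2

private theorem Cnt_top {n : ℕ} [NeZero n] (K : AddSubgroup (ZMod n)) (hK : K ≠ ⊤)
    (f : ZMod n ≃ ZMod n) (q : ZMod n ⧸ K) :
    ¬ ∀ i, (QuotientAddGroup.mk (f i) : ZMod n ⧸ K) = q := by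
  intro h
  apply hK
  rw [AddSubgroup.eq_top_iff']
  intro x
  have h1 := h (f.symm x)
  have h2 := h (f.symm 0)
  rw [Equiv.apply_symm_apply] at h1 h2
  rw [← h2] at h1
  have h3 := (QuotientAddGroup.eq).1 h1
  rw [add_zero] at h3
  exact (neg_mem_iff).1 h3

private theorem Cnt_entry {n : ℕ} [NeZero n] (K : AddSubgroup (ZMod n)) (hK : K ≠ ⊤)
    (f : ZMod n ≃ ZMod n) (q : ZMod n ⧸ K) :
    ∃ i, (QuotientAddGroup.mk (f (i + 1)) : ZMod n ⧸ K) = q ∧
      (QuotientAddGroup.mk (f i) : ZMod n ⧸ K) ≠ q := by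
  by_contra hcon
  push Not at hcon
  obtain ⟨x, hx⟩ := QuotientAddGroup.mk_surjective q
  exact Cnt_top K hK f q (Cnt_all' (P := fun i => (QuotientAddGroup.mk (f i) : ZMod n ⧸ K) = q)
    (f.symm x) (by simpa using hx) hcon)

private theorem Cnt_exit {n : ℕ} [NeZero n] (K : AddSubgroup (ZMod n)) (hK : K ≠ ⊤)
    (f : ZMod n ≃ ZMod n) (q : ZMod n ⧸ K) :
    ∃ i, (QuotientAddGroup.mk (f i) : ZMod n ⧸ K) = q ∧
      (QuotientAddGroup.mk (f (i + 1)) : ZMod n ⧸ K) ≠ q := by
  by_contra hcon
  push Not at hcon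
  obtain ⟨x, hx⟩ := QuotientAddGroup.mk_surjective q
  exact Cnt_top K hK f q (Cnt_all (P := fun i => (QuotientAddGroup.mk (f i) : ZMod n ⧸ K) = q)
    (f.symm x) (by simpa using hx) hcon)

private theorem Cnt_mem {n : ℕ} (K : AddSubgroup (ZMod n)) (x y : ZMod n) :
    x - y ∈ K ↔ (QuotientAddGroup.mk y : ZMod n ⧸ K) = QuotientAddGroup.mk x := by
  rw [QuotientAddGroup.eq, neg_add_eq_sub]

theorem steps_in_le {n : ℕ} [NeZero n] (K : AddSubgroup (ZMod n)) (hK : K ≠ ⊤)
    (f : ZMod n ≃ ZMod n) [DecidablePred fun i : ZMod n => f (i + 1) - f i ∈ K] :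
    (Finset.univ.filter fun i : ZMod n => f (i + 1) - f i ∈ K).card + K.index ≤ n := by
  classical
  have h1 := Finset.card_filter_add_card_filter_not (s := (Finset.univ : Finset (ZMod n)))
    (fun i : ZMod n => f (i + 1) - f i ∈ K)
  rw [Finset.card_univ, ZMod.card] at h1
  have : Fintype (ZMod n ⧸ K) := Fintype.ofFinite _
  have h2 : K.index ≤ (Finset.univ.filter fun i : ZMod n => ¬ (f (i + 1) - f i ∈ K)).card := by
    rw [AddSubgroup.index, Nat.card_eq_fintype_card, ← Finset.card_univ]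
    apply Finset.card_le_card_of_surjOn (fun i => (QuotientAddGroup.mk (f (i + 1)) : ZMod n ⧸ K))
    intro q _
    obtain ⟨i, hi1, hi2⟩ := Cnt_entry K hK f q
    refine ⟨i, ?_, hi1⟩
    simp only [Finset.coe_filter, Finset.mem_univ, true_and, Set.mem_ofPred_eq]
    rw [Cnt_mem]
    intro h
    exact hi2 (h.trans hi1)
  omega

theorem unique_entry {n : ℕ} [NeZero n] (K : AddSubgroup (ZMod n)) (hK : K ≠ ⊤)
    (f : ZMod n ≃ ZMod n) [DecidablePred fun i : ZMod n => f (i + 1) - f i ∈ K]
    (h : (Finset.univ.filter fun i : ZMod n => f (i + 1) - f i ∈ K).card + K.index = n) :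
    (∀ i j : ZMod n, f (i + 1) - f i ∉ K → f (j + 1) - f j ∉ K →
      f (i + 1) - f (j + 1) ∈ K → i = j) ∧
    (∀ i j : ZMod n, f (i + 1) - f i ∉ K → f (j + 1) - f j ∉ K → f i - f j ∈ K → i = j) := by
  classical
  have h1 := Finset.card_filter_add_card_filter_not (s := (Finset.univ : Finset (ZMod n)))
    (fun i : ZMod n => f (i + 1) - f i ∈ K)
  rw [Finset.card_univ, ZMod.card] at h1
  have : Fintype (ZMod n ⧸ K) := Fintype.ofFinite _
  have h2 : (Finset.univ.filter fun i : ZMod n => ¬ (f (i + 1) - f i ∈ K)).card ≤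
      (Finset.univ : Finset (ZMod n ⧸ K)).card := by
    rw [Finset.card_univ, ← Nat.card_eq_fintype_card]
    have : Nat.card (ZMod n ⧸ K) = K.index := rfl
    omega
  constructor
  · have h3 := Finset.injOn_of_surjOn_of_card_le
      (fun i => (QuotientAddGroup.mk (f (i + 1)) : ZMod n ⧸ K))
      (s := Finset.univ.filter fun i : ZMod n => ¬ (f (i + 1) - f i ∈ K))
      (t := Finset.univ) (fun _ _ => Finset.mem_coe.2 (Finset.mem_univ _)) (by
        intro q _
        obtain ⟨i, hi1, hi2⟩ := Cnt_entry K hK f q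
        refine ⟨i, ?_, hi1⟩
        simp only [Finset.coe_filter, Finset.mem_univ, true_and, Set.mem_ofPred_eq]
        rw [Cnt_mem]
        intro h
        exact hi2 (h.trans hi1)) h2
    intro i j hi hj hij
    apply h3
    · simpa using hi
    · simpa using hj
    · exact ((Cnt_mem K _ _).1 hij).symm
  · have h3 := Finset.injOn_of_surjOn_of_card_le
      (fun i => (QuotientAddGroup.mk (f i) : ZMod n ⧸ K))
      (s := Finset.univ.filter fun i : ZMod n => ¬ (f (i + 1) - f i ∈ K))
      (t := Finset.univ) (fun _ _ => Finset.mem_coe.2 (Finset.mem_univ _)) (by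
        intro q _
        obtain ⟨i, hi1, hi2⟩ := Cnt_exit K hK f q
        refine ⟨i, ?_, hi1⟩
        simp only [Finset.coe_filter, Finset.mem_univ, true_and, Set.mem_ofPred_eq]
        rw [Cnt_mem]
        intro h
        exact hi2 (h.symm.trans hi1)) h2
    intro i j hi hj hij
    apply h3
    · simpa using hi
    · simpa using hj
    · exact ((Cnt_mem K _ _).1 hij).symm

end Pool.CHF
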