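import Pool.Agent.CHF.Defs

open Finset

namespace Pool.CHF

open Pool.CTS

/-! ## Module Idx (basic facts on the chain; size 2)
`idx a 0 = n` (closure of the empty set is ⊥, index of ⊥ = card). `H` is monotone, `a i ∈ H a (i+1)`, `H a (i+1) = H a i ⊔ zmultiples (a i)`;
`idx a (i+1) ∣ idx a i` (AddSubgroup.index_dvd_of_le) and `card (H a i) * idx a i = n`. For `a i ∉ H a i` : `idx a (i+1) < idx a i`.
`mult`: with m = idx a i / idx a (i+1): `m ≥ 2`, `idx a i = m * idx a (i+1)`, `k • a i ∈ H a i ↔ (m:ℤ) ∣ k`, and every `x ∈ H a (i+1)` is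
`x = k • a i + h`, `0 ≤ k < m`, `h ∈ H a i`. -/
theorem idx_zero {n : ℕ} [NeZero n] (a : ℕ → ZMod n) : idx a 0 = n := by
  unfold idx H
  have h : (a '' {j | j < 0}) = ∅ := by
    ext x; simp
  rw [h, AddSubgroup.closure_empty, AddSubgroup.index_bot, Nat.card_zmod]

theorem card_mul_idx {n : ℕ} [NeZero n] (a : ℕ → ZMod n) (i : ℕ) :
    Nat.card (H a i) * idx a i = n := by
  unfold idx
  rw [AddSubgroup.card_mul_index, Nat.card_zmod]

private theorem Idx_succ {n : ℕ} (a : ℕ → ZMod n) (i : ℕ) :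
    H a (i + 1) = H a i ⊔ AddSubgroup.zmultiples (a i) := by
  unfold H
  rw [AddSubgroup.zmultiples_eq_closure, ← AddSubgroup.closure_union]
  congr 1
  ext x
  simp only [Set.mem_image, Set.mem_union, Set.mem_singleton_iff]
  constructor
  · rintro ⟨j, hj, rfl⟩
    have hj' : j < i + 1 := hj
    rcases Nat.lt_succ_iff_lt_or_eq.1 hj' with h | h
    · exact Or.inl ⟨j, h, rfl⟩
    · exact Or.inr (by rw [h])
  · rintro (⟨j, hj, rfl⟩ | rfl)
    · exact ⟨j, Nat.lt_succ_of_lt hj, rfl⟩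
    · exact ⟨i, Nat.lt_succ_self i, rfl⟩

theorem idx_mul {n : ℕ} [NeZero n] (a : ℕ → ZMod n) (i : ℕ) (ha : a i ∉ H a i) :
    2 ≤ idx a i / idx a (i + 1) ∧ idx a i = idx a i / idx a (i + 1) * idx a (i + 1) ∧
      1 ≤ idx a (i + 1) ∧
      (∀ k : ℤ, k • a i ∈ H a i ↔ ((idx a i / idx a (i + 1) : ℕ) : ℤ) ∣ k) ∧
      ∀ x ∈ H a (i + 1), ∃ k : ℕ, k < idx a i / idx a (i + 1) ∧ x - k • a i ∈ H a i := by
  set q : ZMod n ⧸ H a i := (QuotientAddGroup.mk' (H a i)) (a i) with hq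
  set m := addOrderOf q with hm
  have hle : H a i ≤ H a (i + 1) := by rw [Idx_succ]; exact le_sup_left
  have hrel : (H a i).relIndex (H a (i + 1)) = m := by
    have h1 := AddSubgroup.relIndex_ker (H a (i + 1)) (QuotientAddGroup.mk' (H a i))
    rw [QuotientAddGroup.ker_mk'] at h1
    rw [h1, Idx_succ, AddSubgroup.map_sup]
    have h2 : AddSubgroup.map (QuotientAddGroup.mk' (H a i)) (H a i) = ⊥ := by
      rw [AddSubgroup.map_eq_bot_iff, QuotientAddGroup.ker_mk']
    rw [h2, bot_sup_eq, AddMonoidHom.map_zmultiples, Nat.card_zmultiples]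
  have hmul : m * idx a (i + 1) = idx a i := by
    rw [← hrel]
    exact AddSubgroup.relIndex_mul_index hle
  have hpos : 1 ≤ idx a (i + 1) := by
    have h1 := card_mul_idx a (i + 1)
    rcases Nat.eq_zero_or_pos (idx a (i + 1)) with h2 | h2
    · rw [h2, mul_zero] at h1
      exact absurd h1.symm (NeZero.ne n)
    · exact h2
  have hpos' : 1 ≤ idx a i := by
    have h1 := card_mul_idx a i
    rcases Nat.eq_zero_or_pos (idx a i) with h2 | h2
    · rw [h2, mul_zero] at h1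
      exact absurd h1.symm (NeZero.ne n)
    · exact h2
  have hdiv : idx a i / idx a (i + 1) = m := by
    rw [← hmul]
    exact Nat.mul_div_cancel m hpos
  have hm2 : 2 ≤ m := by
    rcases Nat.lt_or_ge m 2 with h | h
    · exfalso
      interval_cases hmm : m
      · rw [zero_mul] at hmul
        omega
      · have h3 : addOrderOf q = 1 := by omega
        rw [AddMonoid.addOrderOf_eq_one_iff] at h3
        apply ha
        rw [hq] at h3
        exact (QuotientAddGroup.eq_zero_iff _).1 h3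
    · exact h
  have hk : ∀ k : ℤ, k • a i ∈ H a i ↔ (m : ℤ) ∣ k := by
    intro k
    rw [hm, addOrderOf_dvd_iff_zsmul_eq_zero, hq, ← map_zsmul]
    exact (QuotientAddGroup.eq_zero_iff _).symm
  rw [hdiv]
  refine ⟨hm2, hmul.symm, hpos, hk, ?_⟩
  intro x hx
  rw [Idx_succ, AddSubgroup.mem_sup] at hx
  obtain ⟨h, hh, y, hy, rfl⟩ := hx
  obtain ⟨z, rfl⟩ := AddSubgroup.mem_zmultiples_iff.1 hy
  have hm0 : (0 : ℤ) < m := by omega
  have hz0 : 0 ≤ z % (m : ℤ) := Int.emod_nonneg z hm0.ne'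
  have hzl : z % (m : ℤ) < m := Int.emod_lt_of_pos z hm0
  refine ⟨(z % (m : ℤ)).toNat, by omega, ?_⟩
  have h1 : h + z • a i - (z % (m : ℤ)).toNat • a i = h + (z - z % (m : ℤ)) • a i := by
    rw [← natCast_zsmul, Int.toNat_of_nonneg hz0, sub_smul]
    abel
  rw [h1]
  refine (H a i).add_mem hh ((hk _).2 ?_)
  exact ⟨z / (m : ℤ), by have := Int.emod_add_mul_ediv z (m : ℤ); linarith⟩

end Pool.CHF
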