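import Pool.Agent.CHF.Defs
import Pool.Agent.CHF.Cnt
import Pool.Agent.CHF.Idx

open Finset

namespace Pool.CHF

open Pool.CTS

/-! ## Module Low (size 2; uses steps_in_le): the lower bound
Let N i = number of steps in H a i (N 0 = 0, N ℓ = n, N i ≤ n - g i for i < ℓ). A step not in H a i costs ≥ c (a i); so
cost ≥ ∑_{i<ℓ} (N (i+1) - N i) c (a i) = n c(a_{ℓ-1}) - ∑_{1≤i<ℓ} N i (c (a i) - c (a (i-1))), and c (a (i-1)) ≤ c (a i) (a i ∉ H a (i-1)).
Equality: every step in H a (i+1) \ H a i has cost exactly c (a i), and N i = n - g i for every 1 ≤ i < ℓ with c (a (i-1)) < c (a i). -/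

private theorem Low_abel (D c : ℕ → ℝ) (m : ℕ) :
    ∑ i ∈ Finset.range (m + 1), (D i - D (i + 1)) * c i =
      D 0 * c 0 - D (m + 1) * c m + ∑ i ∈ Finset.range m, D (i + 1) * (c (i + 1) - c i) := by
  induction m with
  | zero => simp; ring
  | succ m ih =>
    rw [Finset.sum_range_succ, ih, Finset.sum_range_succ (fun i => D (i + 1) * (c (i + 1) - c i))]
    ring

private theorem Low_mono {n : ℕ} (a : ℕ → ZMod n) {i j : ℕ} (hij : i ≤ j) : H a i ≤ H a j := by
  unfold H
  exact AddSubgroup.closure_mono (Set.image_mono fun k (hk : k < i) => lt_of_lt_of_le hk hij)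

open Classical in
/-- the level of an element -/
private theorem Low_level {n : ℕ} (c : ZMod n → ℝ) (a : ℕ → ZMod n) (ℓ : ℕ)
    (hc : IsChain c a ℓ) (s : ZMod n) (hs : s ∉ H a 0) :
    ∃ i < ℓ, s ∈ H a (i + 1) ∧ s ∉ H a i ∧
      ∑ j ∈ Finset.range ℓ, ((if s ∈ H a (j + 1) then (1 : ℝ) else 0) -
        (if s ∈ H a j then 1 else 0)) * c (a j) = c (a i) := by
  obtain ⟨h1, h2, h3⟩ := hc
  have hex : ∃ j, s ∈ H a j := ⟨ℓ, by rw [h2]; trivial⟩
  obtain ⟨i, hi⟩ : ∃ i, Nat.find hex = i + 1 := by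
    refine Nat.exists_eq_succ_of_ne_zero fun h0 => hs ?_
    rw [← h0]; exact Nat.find_spec hex
  have hm : s ∈ H a (i + 1) := by rw [← hi]; exact Nat.find_spec hex
  have hn : ∀ j ≤ i, s ∉ H a j := fun j hj => Nat.find_min hex (by omega)
  have hil : i < ℓ := by
    by_contra h
    exact hn ℓ (by omega) (by rw [h2]; trivial)
  refine ⟨i, hil, hm, hn i le_rfl, ?_⟩
  rw [Finset.sum_eq_single i]
  · rw [if_pos hm, if_neg (hn i le_rfl)]; ring
  · intro j _ hj
    rcases lt_or_gt_of_ne hj with h4 | h4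
    · rw [if_neg (hn (j + 1) (by omega)), if_neg (hn j (by omega))]; ring
    · rw [if_pos (Low_mono a (by omega : i + 1 ≤ j + 1) hm),
        if_pos (Low_mono a (by omega : i + 1 ≤ j) hm)]; ring
  · intro h; exact absurd (Finset.mem_range.2 hil) h

open Classical in
private theorem Low_main {n : ℕ} [NeZero n] (c : ZMod n → ℝ) (a : ℕ → ZMod n) (m : ℕ)
    (hc : IsChain c a (m + 1)) (f : ZMod n ≃ ZMod n) :
    (∀ x, f (x + 1) - f x ∉ H a 0) ∧
    tourCost c f - chainBound c a (m + 1) =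
      ∑ x, (c (f (x + 1) - f x) - ∑ j ∈ Finset.range (m + 1),
        ((if f (x + 1) - f x ∈ H a (j + 1) then (1 : ℝ) else 0) -
          (if f (x + 1) - f x ∈ H a j then 1 else 0)) * c (a j)) +
      ∑ i ∈ Finset.range m, ((n : ℝ) - idx a (i + 1) -
        (Finset.univ.filter fun x : ZMod n => f (x + 1) - f x ∈ H a (i + 1)).card) *
          (c (a (i + 1)) - c (a i)) := by
  obtain ⟨h1, h2, h3⟩ := hc
  have hne : ∀ i < m + 1, H a i ≠ ⊤ := by
    intro i hi h
    exact (h3 i hi).1 (by rw [h]; trivial)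
  set N : ℕ → ℕ := fun i => (Finset.univ.filter fun x : ZMod n => f (x + 1) - f x ∈ H a i).card
    with hN
  have hN0 : N 0 = 0 := by
    have := steps_in_le (H a 0) (hne 0 (by omega)) f
    have h4 : (H a 0).index = n := idx_zero a
    rw [h4] at this
    have : N 0 + n ≤ n := by simpa [hN] using this
    omega
  have hNl : N (m + 1) = n := by
    simp only [hN, h2, AddSubgroup.mem_top, Finset.filter_true, Finset.card_univ, ZMod.card]
  have hno : ∀ x, f (x + 1) - f x ∉ H a 0 := by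
    intro x hx
    have : x ∈ Finset.univ.filter fun x : ZMod n => f (x + 1) - f x ∈ H a 0 := by
      simp [hx]
    rw [Finset.card_eq_zero.1 hN0] at this
    exact absurd this (Finset.notMem_empty _)
  refine ⟨hno, ?_⟩
  -- sum of levels
  have hlev : ∑ x : ZMod n, ∑ j ∈ Finset.range (m + 1),
        ((if f (x + 1) - f x ∈ H a (j + 1) then (1 : ℝ) else 0) -
          (if f (x + 1) - f x ∈ H a j then 1 else 0)) * c (a j) =
      ∑ j ∈ Finset.range (m + 1), ((N (j + 1) : ℝ) - N j) * c (a j) := by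
    rw [Finset.sum_comm]
    refine Finset.sum_congr rfl fun j _ => ?_
    rw [← Finset.sum_mul, Finset.sum_sub_distrib, Finset.sum_boole, Finset.sum_boole]
  set g : ℕ → ℝ := fun i => if i < m + 1 then (idx a i : ℝ) else 0 with hg
  have hgi : ∀ i, i < m + 1 → g i = idx a i := fun i hi => by simp only [hg, if_pos hi]
  have hgl : g (m + 1) = 0 := by simp [hg]
  have hcb : chainBound c a (m + 1) = ∑ i ∈ Finset.range (m + 1), (g i - g (i + 1)) * c (a i) := by
    unfold chainBound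
    rw [Finset.sum_range_succ, hgl, hgi m (by omega), Nat.add_sub_cancel, sub_zero]
    congr 1
    refine Finset.sum_congr rfl fun i hi => ?_
    have := Finset.mem_range.1 hi
    rw [hgi i (by omega), hgi (i + 1) (by omega)]
  have hab := Low_abel (fun i => (n : ℝ) - g i - N i) (fun i => c (a i)) m
  simp only [hN0, hNl, hgl, hgi 0 (by omega)] at hab
  rw [idx_zero a] at hab
  have hD : ∑ i ∈ Finset.range m, ((n : ℝ) - g (i + 1) - N (i + 1)) * (c (a (i + 1)) - c (a i)) =
      ∑ i ∈ Finset.range m, ((n : ℝ) - idx a (i + 1) -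
        (Finset.univ.filter fun x : ZMod n => f (x + 1) - f x ∈ H a (i + 1)).card) *
          (c (a (i + 1)) - c (a i)) := by
    refine Finset.sum_congr rfl fun i hi => ?_
    have := Finset.mem_range.1 hi
    rw [hgi (i + 1) (by omega)]
  rw [← hD, Finset.sum_sub_distrib, hlev, hcb]
  unfold tourCost
  have h5 : ∑ i ∈ Finset.range (m + 1), ((n : ℝ) - g i - N i - (n - g (i + 1) - N (i + 1))) * c (a i)
      = ∑ j ∈ Finset.range (m + 1), ((N (j + 1) : ℝ) - N j) * c (a j) -
        ∑ i ∈ Finset.range (m + 1), (g i - g (i + 1)) * c (a i) := by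
    rw [← Finset.sum_sub_distrib]
    refine Finset.sum_congr rfl fun i _ => ?_
    ring
  rw [h5] at hab
  simp only [Nat.cast_zero, sub_zero, sub_self, zero_mul] at hab
  linarith

theorem lower {n : ℕ} [NeZero n] (c : ZMod n → ℝ) (a : ℕ → ZMod n) (ℓ : ℕ) (hc : IsChain c a ℓ)
    (f : ZMod n ≃ ZMod n) : chainBound c a ℓ ≤ tourCost c f := by
  classical
  obtain ⟨m, rfl⟩ : ∃ m, ℓ = m + 1 := ⟨ℓ - 1, by have := hc.1; omega⟩
  obtain ⟨h0, h1⟩ := Low_main c a m hc f
  have h2 : 0 ≤ ∑ x, (c (f (x + 1) - f x) - ∑ j ∈ Finset.range (m + 1),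
        ((if f (x + 1) - f x ∈ H a (j + 1) then (1 : ℝ) else 0) -
          (if f (x + 1) - f x ∈ H a j then 1 else 0)) * c (a j)) := by
    refine Finset.sum_nonneg fun x _ => ?_
    obtain ⟨i, hi, h3, h4, h5⟩ := Low_level c a (m + 1) hc _ (h0 x)
    rw [h5]
    have := (hc.2.2 i hi).2 _ h4
    linarith
  have h3 : 0 ≤ ∑ i ∈ Finset.range m, ((n : ℝ) - idx a (i + 1) -
        (Finset.univ.filter fun x : ZMod n => f (x + 1) - f x ∈ H a (i + 1)).card) *
          (c (a (i + 1)) - c (a i)) := by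
    refine Finset.sum_nonneg fun i hi => ?_
    have hi' := Finset.mem_range.1 hi
    have h4 := steps_in_le (H a (i + 1)) (fun h => (hc.2.2 (i + 1) (by omega)).1
      (by rw [h]; trivial)) f
    have h5 : ((Finset.univ.filter fun x : ZMod n => f (x + 1) - f x ∈ H a (i + 1)).card : ℝ) +
        idx a (i + 1) ≤ n := by exact_mod_cast h4
    have h6 : c (a i) ≤ c (a (i + 1)) := (hc.2.2 i (by omega)).2 _ fun h =>
      (hc.2.2 (i + 1) (by omega)).1 (Low_mono a (Nat.le_succ i) h)
    exact mul_nonneg (by linarith) (by linarith)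
  linarith

open Classical in
theorem lower_eq {n : ℕ} [NeZero n] (c : ZMod n → ℝ) (a : ℕ → ZMod n) (ℓ : ℕ)
    (hc : IsChain c a ℓ) (hs : ∀ i < ℓ, ∀ x, x ∉ H a i → x ≠ a i → x ≠ -a i → c (a i) < c x)
    (hs' : ∀ i, i + 1 < ℓ → c (a i) < c (a (i + 1)))
    (f : ZMod n ≃ ZMod n) (hf : tourCost c f = chainBound c a ℓ) :
    (∀ i : ZMod n, ∃ j < ℓ, f (i + 1) - f i = a j ∨ f (i + 1) - f i = -a j) ∧
      ∀ j, 1 ≤ j → j < ℓ →
        (Finset.univ.filter fun i : ZMod n => f (i + 1) - f i ∈ H a j).card + idx a j = n := by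
  obtain ⟨m, rfl⟩ : ∃ m, ℓ = m + 1 := ⟨ℓ - 1, by have := hc.1; omega⟩
  obtain ⟨h0, h1⟩ := Low_main c a m hc f
  have h2' : ∀ x ∈ (Finset.univ : Finset (ZMod n)), 0 ≤ (c (f (x + 1) - f x) - ∑ j ∈ Finset.range (m + 1),
        ((if f (x + 1) - f x ∈ H a (j + 1) then (1 : ℝ) else 0) -
          (if f (x + 1) - f x ∈ H a j then 1 else 0)) * c (a j)) := by
    intro x _
    obtain ⟨i, hi, h3, h4, h5⟩ := Low_level c a (m + 1) hc _ (h0 x)
    rw [h5]
    have := (hc.2.2 i hi).2 _ h4
    linarith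
  have h3' : ∀ i ∈ Finset.range m, 0 ≤ ((n : ℝ) - idx a (i + 1) -
        (Finset.univ.filter fun x : ZMod n => f (x + 1) - f x ∈ H a (i + 1)).card) *
          (c (a (i + 1)) - c (a i)) := by
    intro i hi
    have hi' := Finset.mem_range.1 hi
    have h4 := steps_in_le (H a (i + 1)) (fun h => (hc.2.2 (i + 1) (by omega)).1
      (by rw [h]; trivial)) f
    have h5 : ((Finset.univ.filter fun x : ZMod n => f (x + 1) - f x ∈ H a (i + 1)).card : ℝ) +
        idx a (i + 1) ≤ n := by exact_mod_cast h4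
    have h6 : c (a i) ≤ c (a (i + 1)) := (hc.2.2 i (by omega)).2 _ fun h =>
      (hc.2.2 (i + 1) (by omega)).1 (Low_mono a (Nat.le_succ i) h)
    exact mul_nonneg (by linarith) (by linarith)
  have h2 := Finset.sum_nonneg h2'
  have h3 := Finset.sum_nonneg h3'
  rw [hf, sub_self] at h1
  have e2 := (Finset.sum_eq_zero_iff_of_nonneg h2').1 (by linarith)
  have e3 := (Finset.sum_eq_zero_iff_of_nonneg h3').1 (by linarith)
  constructor
  · intro x
    obtain ⟨i, hi, h4, h5, h6⟩ := Low_level c a (m + 1) hc _ (h0 x)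
    have h7 := e2 x (Finset.mem_univ x)
    rw [h6] at h7
    refine ⟨i, hi, ?_⟩
    by_contra h8
    rw [not_or] at h8
    have := hs i hi _ h5 h8.1 h8.2
    linarith
  · intro j hj1 hj2
    obtain ⟨i, rfl⟩ : ∃ i, j = i + 1 := ⟨j - 1, by omega⟩
    have h4 := e3 i (Finset.mem_range.2 (by omega))
    have h5 := hs' i hj2
    rcases mul_eq_zero.1 h4 with h6 | h6
    · have h7 : ((Finset.univ.filter fun x : ZMod n => f (x + 1) - f x ∈ H a (i + 1)).card : ℝ) +
        idx a (i + 1) = n := by linarith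
      exact_mod_cast h7
    · linarith

end Pool.CHF
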