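import Pool.Agent.CHF.Defs
import Pool.Agent.CHF.Cnt
import Pool.Agent.CHF.Idx

open Finset

namespace Pool.CHF

open Pool.CTS

/-! ## Module Sgn (size 4; uses unique_entry, idx_mul): the steps ±a i of one level
Hypotheses: K = H a i, K' = H a (i+1); the tour enters every K-coset exactly once and every K'-coset exactly once (K' ≠ ⊤), or K' = ⊤;
index K ≥ 3; all steps in K' \ K are ±a i. Then the sum of the steps in K' \ K is t (m - 1) a i (K' ≠ ⊤), |t| ≤ idx (i+1), t ≡ idx (i+1) mod 2;
resp. ± idx i • a i when K' = ⊤.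
Proof. For a K-coset Q let e(Q) be its unique exit step. Sign lemma: if the entry of Q is σ a i and the exit of Q is σ' a i then σ = σ' (else the exit leads back
to the coset Q' we came from; Q' has a unique exit, so the union of Q, Q' is closed under the tour, hence everything, index K = 2).
In a K'-coset P ≠ everything: let Z be the K-coset of P from which P is left. If A⁺ = set of the K-cosets of P with exit +a i is nonempty then the entry of Z is
+a i: otherwise A⁺ is closed under next, so the union of A⁺ is closed under the tour, impossible. Same for A⁻; so not both are nonempty. The number of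
K-cosets in P is m, one of them is Z: the steps in K' \ K starting in P are m - 1 steps of one sign. Sum over the idx (i+1) cosets P. If K' = ⊤: no Z, all exits are
±a i, one of A⁺, A⁻ is empty (else a Q in A⁺ whose next is in A⁻ contradicts the sign lemma). -/
private theorem Sgn_closed {n : ℕ} [NeZero n] (f : ZMod n ≃ ZMod n) (A : Set (ZMod n))
    (hA : ∀ x, f x ∈ A → f (x + 1) ∈ A) (x0 : ZMod n) (h0 : f x0 ∈ A) (v : ZMod n) : v ∈ A := by
  have h1 : ∀ k : ℕ, f (x0 + k) ∈ A := by
    intro k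
    induction k with
    | zero => simpa using h0
    | succ k ih =>
      have := hA _ ih
      rwa [add_assoc, ← Nat.cast_succ] at this
  have h2 := h1 (f.symm v - x0).val
  rw [ZMod.natCast_zmod_val, add_sub_cancel, Equiv.apply_symm_apply] at h2
  exact h2

private theorem Sgn_exit {n : ℕ} [NeZero n] (K : AddSubgroup (ZMod n)) (hK : K ≠ ⊤)
    (f : ZMod n ≃ ZMod n) (v : ZMod n) : ∃ x, f (x + 1) - f x ∉ K ∧ f x - v ∈ K := by
  by_contra hno
  push Not at hno
  apply hK
  rw [eq_top_iff]
  intro u _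
  have h1 := Sgn_closed f {w | w - v ∈ K} (fun x hx => ?_) (f.symm v) (by simp) (u + v)
  · simpa using h1
  · by_contra h2
    apply hno x ?_ hx
    intro h3
    apply h2
    have h4 : f (x + 1) - v = (f (x + 1) - f x) + (f x - v) := by abel
    show f (x + 1) - v ∈ K
    rw [h4]
    exact K.add_mem h3 hx

private theorem Sgn_index {n : ℕ} [NeZero n] (K : AddSubgroup (ZMod n)) (a b : ZMod n)
    (h : ∀ v : ZMod n, v - a ∈ K ∨ v - b ∈ K) : K.index ≤ 2 := by
  have h1 : (Set.univ : Set (ZMod n ⧸ K)) ⊆ {(a : ZMod n ⧸ K), (b : ZMod n ⧸ K)} := by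
    intro q _
    obtain ⟨v, rfl⟩ := QuotientAddGroup.mk_surjective q
    rcases h v with h2 | h2
    · left
      exact (QuotientAddGroup.eq_iff_sub_mem).2 h2
    · right
      exact (QuotientAddGroup.eq_iff_sub_mem).2 h2
  have h2 := Set.ncard_le_ncard h1
  rw [Set.ncard_univ] at h2
  have h3 := Set.ncard_insert_le (a : ZMod n ⧸ K) {(b : ZMod n ⧸ K)}
  rw [Set.ncard_singleton] at h3
  unfold AddSubgroup.index
  omega

private theorem Sgn_sign {n : ℕ} [NeZero n] (K : AddSubgroup (ZMod n)) (h3 : 3 ≤ K.index)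
    (f : ZMod n ≃ ZMod n)
    (hU : ∀ i j : ZMod n, f (i + 1) - f i ∉ K → f (j + 1) - f j ∉ K → f i - f j ∈ K → i = j)
    (x y : ZMod n) (hx : f (x + 1) - f x ∉ K) (hy : f (y + 1) - f y ∉ K)
    (hxy : f (x + 1) - f y ∈ K) (h : f (y + 1) - f y = -(f (x + 1) - f x)) : False := by
  have h1 := Sgn_index K (f x) (f y) fun v => ?_
  · omega
  · have h2 := Sgn_closed f {v | v - f x ∈ K ∨ v - f y ∈ K} (fun w hw => ?_) x (by simp) v
    · exact h2
    · show f (w + 1) - f x ∈ K ∨ f (w + 1) - f y ∈ K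
      by_cases hs : f (w + 1) - f w ∈ K
      · rcases hw with hw | hw
        · left
          have h4 : f (w + 1) - f x = (f (w + 1) - f w) + (f w - f x) := by abel
          rw [h4]
          exact K.add_mem hs hw
        · right
          have h4 : f (w + 1) - f y = (f (w + 1) - f w) + (f w - f y) := by abel
          rw [h4]
          exact K.add_mem hs hw
      · rcases hw with hw | hw
        · right
          rw [hU w x hs hx hw]
          exact hxy
        · left
          rw [hU w y hs hy hw]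
          have h4 : f (y + 1) - f x = -(f (x + 1) - f y) := by
            have h5 : f (y + 1) = f y - (f (x + 1) - f x) := by
              rw [sub_eq_iff_eq_add] at h
              rw [h]; abel
            rw [h5]; abel
          rw [h4]
          exact K.neg_mem hxy

private theorem Sgn_pm {n : ℕ} {b c d : ZMod n} (hb : b = d ∨ b = -d) (hc : c = d ∨ c = -d) :
    c = b ∨ c = -b := by
  rcases hb with rfl | rfl <;> rcases hc with rfl | rfl <;> simp

/-- from a step of the class of `z` one reaches the entry of the coset of `z` with the same step -/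
private theorem Sgn_reach {n : ℕ} [NeZero n] (K K' : AddSubgroup (ZMod n)) (hKK : K ≤ K')
    (h3 : 3 ≤ K.index) (f : ZMod n ≃ ZMod n) (d : ZMod n)
    (hK : K ≠ ⊤)
    (hU : ∀ i j : ZMod n, f (i + 1) - f i ∉ K → f (j + 1) - f j ∉ K → f i - f j ∈ K → i = j)
    (hV : ∀ i j : ZMod n, f (i + 1) - f i ∉ K' → f (j + 1) - f j ∉ K' → f i - f j ∈ K' → i = j)
    (hst : ∀ x : ZMod n, f (x + 1) - f x ∈ K' → f (x + 1) - f x ∉ K →
      f (x + 1) - f x = d ∨ f (x + 1) - f x = -d)
    (z x : ZMod n) (hz : f (z + 1) - f z ∉ K') (hx' : f (x + 1) - f x ∈ K')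
    (hx : f (x + 1) - f x ∉ K) (hxz : f x - f z ∈ K') :
    ∃ x', f (x' + 1) - f x' ∉ K ∧ f (x' + 1) - f x' = f (x + 1) - f x ∧
      f (x' + 1) - f z ∈ K := by
  by_contra hno
  push Not at hno
  have h2 := Sgn_closed f {v | ∃ x', f (x' + 1) - f x' ∈ K' ∧ f (x' + 1) - f x' ∉ K ∧
    f x' - f z ∈ K' ∧ f (x' + 1) - f x' = f (x + 1) - f x ∧ v - f x' ∈ K} (fun w hw => ?_) x
      ⟨x, hx', hx, hxz, rfl, by simp⟩ (f z)
  · obtain ⟨x', h4, h5, h6, h7, h8⟩ := h2
    have h9 := hU z x' (fun h => hz (hKK h)) h5 h8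
    rw [h9] at hz
    exact hz h4
  · obtain ⟨x', h4, h5, h6, h7, h8⟩ := hw
    by_cases hs : f (w + 1) - f w ∈ K
    · refine ⟨x', h4, h5, h6, h7, ?_⟩
      have h9 : f (w + 1) - f x' = (f (w + 1) - f w) + (f w - f x') := by abel
      rw [h9]
      exact K.add_mem hs h8
    · have h9 := hU w x' hs h5 h8
      subst h9
      obtain ⟨y, hy1, hy2⟩ := Sgn_exit K hK f (f (w + 1))
      have hy2' : f (w + 1) - f y ∈ K := by
        have h10 : f (w + 1) - f y = -(f y - f (w + 1)) := by abel
        rw [h10]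
        exact K.neg_mem hy2
      have hyz : f y - f z ∈ K' := by
        have h10 : f y - f z = (f y - f (w + 1)) + (f (w + 1) - f w) + (f w - f z) := by abel
        rw [h10]
        exact K'.add_mem (K'.add_mem (hKK hy2) h4) h6
      have hyK' : f (y + 1) - f y ∈ K' := by
        by_contra h10
        have h11 := hV y z h10 hz hyz
        subst h11
        exact hno w h5 h7 hy2'
      refine ⟨y, hyK', hy1, hyz, ?_, hy2'⟩
      rcases Sgn_pm (hst x hx' hx) (hst y hyK' hy1) with h10 | h10
      · exact h10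
      · exfalso
        rw [← h7] at h10
        exact Sgn_sign K h3 f hU w y hs hy1 hy2' h10

private theorem Sgn_le {n : ℕ} (a : ℕ → ZMod n) (i : ℕ) : H a i ≤ H a (i + 1) := by
  unfold H
  exact AddSubgroup.closure_mono (Set.image_mono fun k (hk : k < i) => Nat.lt_succ_of_lt hk)

private theorem Sgn_mem {n : ℕ} (a : ℕ → ZMod n) (i : ℕ) : a i ∈ H a (i + 1) := by
  unfold H
  exact AddSubgroup.subset_closure ⟨i, Nat.lt_succ_self i, rfl⟩

open Classical in
/-- number of exits of K-cosets inside a K'-coset -/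
private theorem Sgn_count {n : ℕ} [NeZero n] (a : ℕ → ZMod n) (i : ℕ) (ha : a i ∉ H a i)
    (f : ZMod n ≃ ZMod n) (hK : H a i ≠ ⊤)
    (hU : ∀ x y : ZMod n, f (x + 1) - f x ∉ H a i → f (y + 1) - f y ∉ H a i →
      f x - f y ∈ H a i → x = y) (z : ZMod n) :
    (Finset.univ.filter fun x : ZMod n => f (x + 1) - f x ∉ H a i ∧ f x - f z ∈ H a (i + 1)).card =
      idx a i / idx a (i + 1) := by
  obtain ⟨-, -, -, h4, h5⟩ := idx_mul a i ha
  choose e he1 he2 using fun k : ℕ => Sgn_exit (H a i) hK f (f z + k • a i)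
  have hE : (Finset.univ.filter fun x : ZMod n => f (x + 1) - f x ∉ H a i ∧
      f x - f z ∈ H a (i + 1)) = (Finset.range (idx a i / idx a (i + 1))).image e := by
    ext x
    simp only [Finset.mem_filter, Finset.mem_univ, true_and, Finset.mem_image, Finset.mem_range]
    constructor
    · rintro ⟨h6, h7⟩
      obtain ⟨k, hk1, hk2⟩ := h5 _ h7
      refine ⟨k, hk1, ?_⟩
      refine hU _ _ (he1 k) h6 ?_
      have h8 : f (e k) - f x = (f (e k) - (f z + k • a i)) - (f x - f z - k • a i) := by abel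
      rw [h8]
      exact (H a i).sub_mem (he2 k) hk2
    · rintro ⟨k, hk1, rfl⟩
      refine ⟨he1 k, ?_⟩
      have h8 : f (e k) - f z = (f (e k) - (f z + k • a i)) + k • a i := by abel
      rw [h8]
      exact (H a (i + 1)).add_mem (Sgn_le a i (he2 k)) ((H a (i + 1)).nsmul_mem (Sgn_mem a i) k)
  rw [hE, Finset.card_image_of_injOn, Finset.card_range]
  intro k hk l hl hkl
  have hk' := Finset.mem_range.1 (Finset.mem_coe.1 hk)
  have hl' := Finset.mem_range.1 (Finset.mem_coe.1 hl)
  have h6 : ((k : ℤ) - (l : ℤ)) • a i ∈ H a i := by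
    have h7 : ((k : ℤ) - (l : ℤ)) • a i =
        (f (e l) - (f z + l • a i)) - (f (e k) - (f z + k • a i)) := by
      rw [hkl, sub_smul, natCast_zsmul, natCast_zsmul]; abel
    rw [h7]
    exact (H a i).sub_mem (he2 l) (he2 k)
  have h7 := (h4 _).1 h6
  generalize idx a i / idx a (i + 1) = M at hk' hl' h7
  have h8 := Int.eq_zero_of_abs_lt_dvd h7 (by rw [abs_lt]; constructor <;> omega)
  omega

open Classical in
theorem level_sum {n : ℕ} [NeZero n] (a : ℕ → ZMod n) (i : ℕ) (ha : a i ∉ H a i)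
    (f : ZMod n ≃ ZMod n) (h3 : 3 ≤ idx a i) (hK' : H a (i + 1) ≠ ⊤)
    (h1 : (Finset.univ.filter fun x : ZMod n => f (x + 1) - f x ∈ H a i).card + idx a i = n)
    (h2 : (Finset.univ.filter fun x : ZMod n => f (x + 1) - f x ∈ H a (i + 1)).card +
      idx a (i + 1) = n)
    (hst : ∀ x : ZMod n, f (x + 1) - f x ∈ H a (i + 1) → f (x + 1) - f x ∉ H a i →
      f (x + 1) - f x = a i ∨ f (x + 1) - f x = -a i) :
    ∃ t : ℤ, |t| ≤ (idx a (i + 1) : ℤ) ∧ Even (t - (idx a (i + 1) : ℤ)) ∧
      ∑ x ∈ Finset.univ.filter (fun x : ZMod n => f (x + 1) - f x ∈ H a (i + 1) ∧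
        f (x + 1) - f x ∉ H a i), (f (x + 1) - f x) =
        (t * (((idx a i / idx a (i + 1) : ℕ) : ℤ) - 1)) • a i := by
  classical
  have hidx : ∀ j, idx a j = (H a j).index := fun j => rfl
  have hK : H a i ≠ ⊤ := by
    intro h
    rw [hidx, h, AddSubgroup.index_top] at h3
    omega
  have hU := (unique_entry (H a i) hK f h1).2
  have hU1 := (unique_entry (H a i) hK f h1).1
  have hV := (unique_entry (H a (i + 1)) hK' f h2).2
  obtain ⟨hm2, hm, hg1, -, -⟩ := idx_mul a i ha
  set m := idx a i / idx a (i + 1) with hmd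
  -- exits of the K'-cosets
  set Z := Finset.univ.filter (fun z : ZMod n => f (z + 1) - f z ∉ H a (i + 1)) with hZ
  have hZc : Z.card = idx a (i + 1) := by
    have h4 := Finset.card_filter_add_card_filter_not (s := (Finset.univ : Finset (ZMod n)))
      (fun z : ZMod n => f (z + 1) - f z ∈ H a (i + 1))
    rw [Finset.card_univ, ZMod.card] at h4
    have h5 : (Finset.univ.filter fun x : ZMod n => f (x + 1) - f x ∈ H a (i + 1)).card + Z.card
      = n := h4
    omega
  -- one sign for every z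
  have hsgn : ∀ z ∈ Z, ∃ τ : ℤ, (τ = 1 ∨ τ = -1) ∧ ∀ x : ZMod n, f (x + 1) - f x ∈ H a (i + 1) →
      f (x + 1) - f x ∉ H a i → f x - f z ∈ H a (i + 1) → f (x + 1) - f x = τ • a i := by
    intro z hz
    have hz' : f (z + 1) - f z ∉ H a (i + 1) := (Finset.mem_filter.1 hz).2
    have hone : ∀ x y : ZMod n, f (x + 1) - f x ∈ H a (i + 1) →
      f (x + 1) - f x ∉ H a i → f x - f z ∈ H a (i + 1) → f (y + 1) - f y ∈ H a (i + 1) →
      f (y + 1) - f y ∉ H a i → f y - f z ∈ H a (i + 1) →
      f (x + 1) - f x = f (y + 1) - f y := by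
      intro x y hx1 hx2 hx3 hy1 hy2 hy3
      obtain ⟨x', hx4, hx5, hx6⟩ := Sgn_reach (H a i) (H a (i + 1)) (Sgn_le a i) h3 f (a i) hK hU hV
        hst z x hz' hx1 hx2 hx3
      obtain ⟨y', hy4, hy5, hy6⟩ := Sgn_reach (H a i) (H a (i + 1)) (Sgn_le a i) h3 f (a i) hK hU hV
        hst z y hz' hy1 hy2 hy3
      have h4 : x' = y' := by
        refine hU1 _ _ hx4 hy4 ?_
        have h5 : f (x' + 1) - f (y' + 1) = (f (x' + 1) - f z) - (f (y' + 1) - f z) := by abel
        rw [h5]
        exact (H a i).sub_mem hx6 hy6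
      rw [← hx5, ← hy5, h4]
    by_cases hex : ∃ y : ZMod n, f (y + 1) - f y ∈ H a (i + 1) ∧
      f (y + 1) - f y ∉ H a i ∧ f y - f z ∈ H a (i + 1)
    · obtain ⟨y, hy1, hy2, hy3⟩ := hex
      rcases hst y hy1 hy2 with h4 | h4
      · refine ⟨1, Or.inl rfl, fun x hx1 hx2 hx3 => ?_⟩
        rw [hone x y hx1 hx2 hx3 hy1 hy2 hy3, h4, one_smul]
      · refine ⟨-1, Or.inr rfl, fun x hx1 hx2 hx3 => ?_⟩
        rw [hone x y hx1 hx2 hx3 hy1 hy2 hy3, h4, neg_smul, one_smul]
    · exact ⟨1, Or.inl rfl, fun x hx1 hx2 hx3 => absurd ⟨x, hx1, hx2, hx3⟩ hex⟩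
  choose! τ hτ1 hτ2 using hsgn
  -- number of x for every z
  have hcard : ∀ z ∈ Z, ((Finset.univ.filter (fun x : ZMod n => f (x + 1) - f x ∈ H a (i + 1) ∧
        f (x + 1) - f x ∉ H a i)).filter (fun x => f x - f z ∈ H a (i + 1))).card + 1 = m := by
    intro z hz
    have hz' : f (z + 1) - f z ∉ H a (i + 1) := (Finset.mem_filter.1 hz).2
    have h4 := Sgn_count a i ha f hK hU z
    rw [← hmd] at h4
    have h5 : (Finset.univ.filter fun x : ZMod n => f (x + 1) - f x ∉ H a i ∧
        f x - f z ∈ H a (i + 1)) = insert z ((Finset.univ.filter (fun x : ZMod n =>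
          f (x + 1) - f x ∈ H a (i + 1) ∧ f (x + 1) - f x ∉ H a i)).filter
            (fun x => f x - f z ∈ H a (i + 1))) := by
      ext x
      simp only [Finset.mem_filter, Finset.mem_univ, true_and, Finset.mem_insert]
      constructor
      · rintro ⟨h6, h7⟩
        by_cases h8 : f (x + 1) - f x ∈ H a (i + 1)
        · exact Or.inr ⟨⟨h8, h6⟩, h7⟩
        · exact Or.inl (hV x z h8 hz' h7)
      · rintro (rfl | ⟨⟨h6, h7⟩, h8⟩)
        · exact ⟨fun h => hz' (Sgn_le a i h), by simp⟩
        · exact ⟨h7, h8⟩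
    rw [h5, Finset.card_insert_of_notMem] at h4
    · exact h4
    · intro h6
      exact hz' (Finset.mem_filter.1 (Finset.mem_filter.1 h6).1).2.1
  -- the sum
  refine ⟨∑ z ∈ Z, τ z, ?_, ?_, ?_⟩
  · calc |∑ z ∈ Z, τ z| ≤ ∑ z ∈ Z, |τ z| := Finset.abs_sum_le_sum_abs _ _
      _ ≤ ∑ z ∈ Z, (1 : ℤ) := Finset.sum_le_sum fun z hz => by
          rcases hτ1 z hz with h | h <;> rw [h] <;> norm_num
      _ = (idx a (i + 1) : ℤ) := by rw [Finset.sum_const, hZc]; simp
  · have h4 : (∑ z ∈ Z, τ z) - (idx a (i + 1) : ℤ) = ∑ z ∈ Z, (τ z - 1) := by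
      rw [Finset.sum_sub_distrib, Finset.sum_const, hZc]; simp
    rw [h4]
    refine Finset.even_sum _ fun z hz => ?_
    rcases hτ1 z hz with h | h <;> rw [h] <;> decide
  · have h4 : ∀ x ∈ Finset.univ.filter (fun x : ZMod n => f (x + 1) - f x ∈ H a (i + 1) ∧
        f (x + 1) - f x ∉ H a i), f (x + 1) - f x =
          ∑ z ∈ Z, if f x - f z ∈ H a (i + 1) then f (x + 1) - f x else 0 := by
      intro x hx
      obtain ⟨z, hz1, hz2⟩ := Sgn_exit (H a (i + 1)) hK' f (f x)
      have hz3 : f x - f z ∈ H a (i + 1) := by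
        have h5 : f x - f z = -(f z - f x) := by abel
        rw [h5]; exact (H a (i + 1)).neg_mem hz2
      rw [Finset.sum_eq_single z]
      · rw [if_pos hz3]
      · intro w hw hwz
        rw [if_neg]
        intro h5
        apply hwz
        have hw' : f (w + 1) - f w ∉ H a (i + 1) := (Finset.mem_filter.1 hw).2
        refine hV w z hw' hz1 ?_
        have h6 : f w - f z = (f x - f z) - (f x - f w) := by abel
        rw [h6]
        exact (H a (i + 1)).sub_mem hz3 h5
      · intro h5
        exact absurd (show z ∈ Z by rw [hZ]; exact Finset.mem_filter.2 ⟨Finset.mem_univ _, hz1⟩) h5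
    rw [Finset.sum_congr rfl h4, Finset.sum_comm]
    have h5 : ∀ z ∈ Z, ∑ x ∈ Finset.univ.filter (fun x : ZMod n =>
        f (x + 1) - f x ∈ H a (i + 1) ∧ f (x + 1) - f x ∉ H a i),
          (if f x - f z ∈ H a (i + 1) then f (x + 1) - f x else 0) = (τ z * ((m : ℤ) - 1)) • a i := by
      intro z hz
      rw [← Finset.sum_filter]
      have h6 : ∀ x ∈ (Finset.univ.filter (fun x : ZMod n => f (x + 1) - f x ∈ H a (i + 1) ∧
        f (x + 1) - f x ∉ H a i)).filter (fun x => f x - f z ∈ H a (i + 1)),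
          f (x + 1) - f x = τ z • a i := by
        intro x hx
        have h7 := Finset.mem_filter.1 hx
        have h8 := (Finset.mem_filter.1 h7.1).2
        exact hτ2 z hz x h8.1 h8.2 h7.2
      rw [Finset.sum_congr rfl h6, Finset.sum_const]
      have h7 := hcard z hz
      have h8 : ((((Finset.univ.filter (fun x : ZMod n => f (x + 1) - f x ∈ H a (i + 1) ∧
        f (x + 1) - f x ∉ H a i)).filter (fun x => f x - f z ∈ H a (i + 1))).card : ℕ) : ℤ) =
          (m : ℤ) - 1 := by
        have : (((((Finset.univ.filter (fun x : ZMod n => f (x + 1) - f x ∈ H a (i + 1) ∧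
          f (x + 1) - f x ∉ H a i)).filter (fun x => f x - f z ∈ H a (i + 1))).card + 1 : ℕ)) : ℤ)
            = m := by rw [h7]
        push_cast at this
        linarith
      rw [← natCast_zsmul, h8, smul_smul, mul_comm]
    rw [Finset.sum_congr rfl h5, ← Finset.sum_smul, ← Finset.sum_mul]

open Classical in
theorem top_sum {n : ℕ} [NeZero n] (a : ℕ → ZMod n) (i : ℕ) (ha : a i ∉ H a i)
    (f : ZMod n ≃ ZMod n) (h3 : 3 ≤ idx a i) (hK' : H a (i + 1) = ⊤)
    (h1 : (Finset.univ.filter fun x : ZMod n => f (x + 1) - f x ∈ H a i).card + idx a i = n)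
    (hst : ∀ x : ZMod n, f (x + 1) - f x ∉ H a i →
      f (x + 1) - f x = a i ∨ f (x + 1) - f x = -a i) :
    ∃ σ : ℤ, (σ = 1 ∨ σ = -1) ∧
      ∑ x ∈ Finset.univ.filter (fun x : ZMod n => f (x + 1) - f x ∉ H a i), (f (x + 1) - f x) =
        (σ * (idx a i : ℤ)) • a i := by
  classical
  have hidx : ∀ j, idx a j = (H a j).index := fun j => rfl
  have hK : H a i ≠ ⊤ := by
    intro h
    rw [hidx, h, AddSubgroup.index_top] at h3
    omega
  have hU := (unique_entry (H a i) hK f h1).2
  have hc : (Finset.univ.filter (fun x : ZMod n => f (x + 1) - f x ∉ H a i)).card = idx a i := by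
    have h4 := Finset.card_filter_add_card_filter_not (s := (Finset.univ : Finset (ZMod n)))
      (fun z : ZMod n => f (z + 1) - f z ∈ H a i)
    rw [Finset.card_univ, ZMod.card] at h4
    have h5 : (Finset.univ.filter fun x : ZMod n => f (x + 1) - f x ∈ H a i).card +
      (Finset.univ.filter (fun x : ZMod n => f (x + 1) - f x ∉ H a i)).card = n := h4
    omega
  obtain ⟨y, hy1, -⟩ := Sgn_exit (H a i) hK f 0
  have hall : ∀ x : ZMod n, f (x + 1) - f x ∉ H a i → f (x + 1) - f x = f (y + 1) - f y := by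
    intro x hx
    have h4 := Sgn_closed f {v | ∃ x', f (x' + 1) - f x' ∉ H a i ∧
      f (x' + 1) - f x' = f (y + 1) - f y ∧ v - f x' ∈ H a i} (fun w hw => ?_) y
        ⟨y, hy1, rfl, by simp⟩ (f x)
    · obtain ⟨x', h5, h6, h7⟩ := h4
      rw [hU x x' hx h5 h7]
      exact h6
    · obtain ⟨x', h5, h6, h7⟩ := hw
      by_cases hs : f (w + 1) - f w ∈ H a i
      · refine ⟨x', h5, h6, ?_⟩
        have h9 : f (w + 1) - f x' = (f (w + 1) - f w) + (f w - f x') := by abel
        rw [h9]
        exact (H a i).add_mem hs h7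
      · have h9 := hU w x' hs h5 h7
        subst h9
        obtain ⟨u, hu1, hu2⟩ := Sgn_exit (H a i) hK f (f (w + 1))
        have hu2' : f (w + 1) - f u ∈ H a i := by
          have h10 : f (w + 1) - f u = -(f u - f (w + 1)) := by abel
          rw [h10]
          exact (H a i).neg_mem hu2
        refine ⟨u, hu1, ?_, hu2'⟩
        rcases Sgn_pm (hst y hy1) (hst u hu1) with h10 | h10
        · exact h10
        · exfalso
          rw [← h6] at h10
          exact Sgn_sign (H a i) h3 f hU w u hs hu1 hu2' h10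
  rcases hst y hy1 with h4 | h4
  · refine ⟨1, Or.inl rfl, ?_⟩
    rw [Finset.sum_congr rfl fun x hx => (hall x (Finset.mem_filter.1 hx).2).trans h4,
      Finset.sum_const, hc, one_mul, natCast_zsmul]
  · refine ⟨-1, Or.inr rfl, ?_⟩
    rw [Finset.sum_congr rfl fun x hx => (hall x (Finset.mem_filter.1 hx).2).trans h4,
      Finset.sum_const, hc, neg_mul, one_mul, neg_smul, natCast_zsmul, smul_neg]

end Pool.CHF
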