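import Pool.Agent.CHF.Defs
import Pool.Agent.CHF.Low
import Pool.Agent.CHF.Sgn
import Pool.Agent.CHF.Idx

open Finset

namespace Pool.CHF

open Pool.CTS

private theorem Conv_mono {n : ℕ} (a : ℕ → ZMod n) {i j : ℕ} (h : i ≤ j) : H a i ≤ H a j :=
  AddSubgroup.closure_mono (Set.image_mono (fun k (hk : k < i) => by
    show k < j
    omega))

private theorem Conv_mem {n : ℕ} (a : ℕ → ZMod n) {i j : ℕ} (h : i < j) : a i ∈ H a j :=
  AddSubgroup.subset_closure ⟨i, h, rfl⟩

/-! ## Module Conv (size 2; uses lower_eq, level_sum, top_sum)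
The steps sum to 0. Split them by levels. If σ = -1 negate all t. For i < ℓ-1: idx a i ≥ m_i m_{i+1} ≥ 4 ≥ 3. For i = 0: H a 0 = ⊥, no step is 0 (n ≥ 2), count = 0, idx = n. -/
theorem conv {n : ℕ} [NeZero n] (hn : 3 ≤ n) (c : ZMod n → ℝ) (a : ℕ → ZMod n) (ℓ : ℕ)
    (hc : IsChain c a ℓ) (hs : ∀ i < ℓ, ∀ x, x ∉ H a i → x ≠ a i → x ≠ -a i → c (a i) < c x)
    (hs' : ∀ i, i + 1 < ℓ → c (a i) < c (a (i + 1)))
    (h3 : 3 ≤ idx a (ℓ - 1)) (f : ZMod n ≃ ZMod n) (hf : tourCost c f = chainBound c a ℓ) :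
    Solvable a ℓ := by
  classical
  obtain ⟨hℓ, htop, hcc⟩ := hc
  obtain ⟨hst, hcount⟩ := lower_eq c a ℓ ⟨hℓ, htop, hcc⟩ hs hs' f hf
  set s : ZMod n → ZMod n := fun x => f (x + 1) - f x with hsdef
  -- no step is zero
  have hs0 : ∀ x, f (x + 1) - f x ≠ 0 := by
    intro x h
    have h1 : x + 1 = x := f.injective (sub_eq_zero.1 h)
    have h2 : (1 : ZMod n) = 0 := by simpa using h1
    have h3' : ((1 : ℕ) : ZMod n) = 0 := by simpa using h2
    rw [ZMod.natCast_eq_zero_iff] at h3'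
    have := Nat.le_of_dvd one_pos h3'
    omega
  -- the count
  have hcnt : ∀ j < ℓ,
      (Finset.univ.filter fun i : ZMod n => f (i + 1) - f i ∈ H a j).card + idx a j = n := by
    intro j hj
    rcases Nat.eq_zero_or_pos j with rfl | hj0
    · have h1 : (Finset.univ.filter fun i : ZMod n => f (i + 1) - f i ∈ H a 0) = ∅ := by
        rw [Finset.filter_eq_empty_iff]
        intro x _ hx
        have h2 : H a 0 = ⊥ := by
          unfold H
          have : {j | j < 0} = (∅ : Set ℕ) := by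
            ext k; simp
          rw [this, Set.image_empty, AddSubgroup.closure_empty]
        rw [h2, AddSubgroup.mem_bot] at hx
        exact hs0 x hx
      rw [h1, Finset.card_empty, zero_add, idx_zero]
    · exact hcount j hj0 hj
  -- the steps of level `i` are `± a i`
  have hlev : ∀ i < ℓ, ∀ x : ZMod n, f (x + 1) - f x ∈ H a (i + 1) → f (x + 1) - f x ∉ H a i →
      f (x + 1) - f x = a i ∨ f (x + 1) - f x = -a i := by
    intro i hi x h1 h2
    obtain ⟨j, hj, hx⟩ := hst x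
    have hmem : ∀ K : AddSubgroup (ZMod n), f (x + 1) - f x ∈ K ↔ a j ∈ K := by
      intro K
      rcases hx with hx | hx
      · rw [hx]
      · rw [hx, neg_mem_iff]
    rw [hmem] at h1 h2
    have hji : j = i := by
      rcases lt_trichotomy j i with h | h | h
      · exact absurd (Conv_mem a h) h2
      · exact h
      · exact absurd (Conv_mono a (show i + 1 ≤ j from h) h1) (hcc j hj).1
    rw [← hji]
    exact hx
  have hne : ∀ i < ℓ, H a i ≠ ⊤ := by
    intro i hi h
    exact (hcc i hi).1 (by rw [h]; trivial)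
  have hidx : ∀ i < ℓ, 2 ≤ idx a i := by
    intro i hi
    obtain ⟨h1, h2, h3', -⟩ := idx_mul a i (hcc i hi).1
    calc 2 = 2 * 1 := rfl
      _ ≤ idx a i / idx a (i + 1) * idx a (i + 1) := Nat.mul_le_mul h1 h3'
      _ = idx a i := h2.symm
  have hidx4 : ∀ i < ℓ - 1, 3 ≤ idx a i := by
    intro i hi
    obtain ⟨h1, h2, h3', -⟩ := idx_mul a i (hcc i (by omega)).1
    have h4 : 2 * 2 ≤ idx a i := by
      rw [h2]
      exact Nat.mul_le_mul h1 (hidx (i + 1) (by omega))
    omega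
  have hlevel : ∀ i, ∃ t : ℤ, i < ℓ - 1 → (|t| ≤ (idx a (i + 1) : ℤ) ∧
      Even (t - (idx a (i + 1) : ℤ)) ∧
      ∑ x ∈ Finset.univ.filter (fun x : ZMod n => f (x + 1) - f x ∈ H a (i + 1) ∧
        f (x + 1) - f x ∉ H a i), (f (x + 1) - f x) =
        (t * (((idx a i / idx a (i + 1) : ℕ) : ℤ) - 1)) • a i) := by
    intro i
    by_cases hi : i < ℓ - 1
    · obtain ⟨t, ht⟩ := level_sum a i (hcc i (by omega)).1 f (hidx4 i hi) (hne (i + 1) (by omega))
        (hcnt i (by omega)) (hcnt (i + 1) (by omega)) (fun x => hlev i (by omega) x)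
      exact ⟨t, fun _ => ht⟩
    · exact ⟨0, fun h => absurd h hi⟩
  choose t ht using hlevel
  have hℓ1 : ℓ - 1 + 1 = ℓ := by omega
  obtain ⟨σ, hσ, hsum⟩ := top_sum a (ℓ - 1) (hcc (ℓ - 1) (by omega)).1 f h3
    (by rw [hℓ1]; exact htop) (hcnt (ℓ - 1) (by omega))
    (fun x hx => hlev (ℓ - 1) (by omega) x (by rw [hℓ1, htop]; trivial) hx)
  -- telescoping
  have htel : ∀ j ≤ ℓ - 1, ∑ x ∈ Finset.univ.filter (fun x : ZMod n => f (x + 1) - f x ∈ H a j),
      (f (x + 1) - f x) =
      ∑ i ∈ Finset.range j, (t i * (((idx a i / idx a (i + 1) : ℕ) : ℤ) - 1)) • a i := by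
    intro j
    induction j with
    | zero =>
      intro _
      rw [Finset.range_zero, Finset.sum_empty]
      have h1 : (Finset.univ.filter fun i : ZMod n => f (i + 1) - f i ∈ H a 0) = ∅ := by
        have h2 := hcnt 0 (by omega)
        rw [idx_zero] at h2
        exact Finset.card_eq_zero.1 (by omega)
      rw [h1, Finset.sum_empty]
    | succ j ih =>
      intro hj
      rw [Finset.sum_range_succ, ← ih (by omega), ← (ht j (by omega)).2.2]
      rw [← Finset.sum_filter_add_sum_filter_not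
        (Finset.univ.filter (fun x : ZMod n => f (x + 1) - f x ∈ H a (j + 1)))
        (fun x : ZMod n => f (x + 1) - f x ∈ H a j), Finset.filter_filter, Finset.filter_filter]
      congr 1
      apply Finset.sum_congr _ (fun _ _ => rfl)
      ext x
      simp only [Finset.mem_filter, Finset.mem_univ, true_and]
      exact ⟨fun h => h.2, fun h => ⟨Conv_mono a (Nat.le_succ j) h, h⟩⟩
  have htotal : ∑ x : ZMod n, (f (x + 1) - f x) = 0 := by
    rw [Finset.sum_sub_distrib, sub_eq_zero]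
    exact Equiv.sum_comp (Equiv.addRight (1 : ZMod n)) (fun x => f x)
  have hfin : ∑ i ∈ Finset.range (ℓ - 1),
      (t i * (((idx a i / idx a (i + 1) : ℕ) : ℤ) - 1)) • a i +
      (σ * (idx a (ℓ - 1) : ℤ)) • a (ℓ - 1) = 0 := by
    rw [← htel (ℓ - 1) le_rfl, ← hsum, Finset.sum_filter_add_sum_filter_not]
    exact htotal
  rcases hσ with rfl | rfl
  · refine ⟨t, fun i hi => ⟨(ht i hi).1, (ht i hi).2.1⟩, ?_⟩
    rw [one_mul] at hfin
    rw [add_comm]
    exact hfin
  · refine ⟨fun i => -t i, fun i hi => ⟨?_, ?_⟩, ?_⟩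
    · rw [abs_neg]; exact (ht i hi).1
    · have h1 := (ht i hi).2.1
      have h2 : -t i - (idx a (i + 1) : ℤ) = -(t i - (idx a (i + 1) : ℤ)) -
          2 * (idx a (i + 1) : ℤ) := by ring
      rw [h2]
      exact h1.neg.sub (even_two_mul _)
    · have h1 : ∑ i ∈ Finset.range (ℓ - 1),
          (-t i * (((idx a i / idx a (i + 1) : ℕ) : ℤ) - 1)) • a i =
          -∑ i ∈ Finset.range (ℓ - 1),
          (t i * (((idx a i / idx a (i + 1) : ℕ) : ℤ) - 1)) • a i := by
        rw [← Finset.sum_neg_distrib]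
        refine Finset.sum_congr rfl fun i _ => ?_
        rw [neg_mul, neg_smul]
      rw [h1]
      have h2 : (-1 * (idx a (ℓ - 1) : ℤ)) • a (ℓ - 1) =
          -((idx a (ℓ - 1) : ℤ) • a (ℓ - 1)) := by
        rw [neg_one_mul, neg_smul]
      rw [h2] at hfin
      have h3' := sub_eq_zero.1 (by rw [sub_eq_add_neg]; exact hfin :
        ∑ i ∈ Finset.range (ℓ - 1), (t i * (((idx a i / idx a (i + 1) : ℕ) : ℤ) - 1)) • a i -
          ((idx a (ℓ - 1) : ℤ) • a (ℓ - 1)) = 0)
      rw [h3', add_neg_cancel]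

end Pool.CHF
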