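import Mathlib
import Pool.Agent.CTS.Defs

/-!
# CHF: definitions (symmetric circulant TSP, the chain lower bound)  (helper32)
-/

open Finset

namespace Pool.CHF

/-- The subgroup generated by `a 0, …, a (i - 1)`. -/
def H {n : ℕ} (a : ℕ → ZMod n) (i : ℕ) : AddSubgroup (ZMod n) :=
  AddSubgroup.closure (a '' {j | j < i})

/-- The index `g i` of `H a i` in `ℤ/n`. -/
noncomputable def idx {n : ℕ} (a : ℕ → ZMod n) (i : ℕ) : ℕ := (H a i).index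

/-- `a 0, …, a (ℓ - 1)` is an essential chain for the costs `c`: each `a i` is a cheapest element
outside the subgroup `H a i` generated by the earlier ones, and all of them generate `ℤ/n`. -/
def IsChain {n : ℕ} (c : ZMod n → ℝ) (a : ℕ → ZMod n) (ℓ : ℕ) : Prop :=
  1 ≤ ℓ ∧ H a ℓ = ⊤ ∧ ∀ i < ℓ, a i ∉ H a i ∧ ∀ x, x ∉ H a i → c (a i) ≤ c x

/-- The classical lower bound `∑_{i < ℓ - 1} (g i - g (i + 1)) c (a i) + g (ℓ - 1) c (a (ℓ - 1))`. -/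
noncomputable def chainBound {n : ℕ} (c : ZMod n → ℝ) (a : ℕ → ZMod n) (ℓ : ℕ) : ℝ :=
  (∑ i ∈ Finset.range (ℓ - 1), ((idx a i : ℝ) - idx a (i + 1)) * c (a i)) +
    idx a (ℓ - 1) * c (a (ℓ - 1))

/-- The arithmetic condition: there are integers `t i` (`i < ℓ - 1`) with `|t i| ≤ g (i + 1)`,
`t i ≡ g (i + 1)` modulo `2` and
`g (ℓ - 1) a (ℓ - 1) + ∑_{i < ℓ - 1} t i (g i / g (i + 1) - 1) a i = 0` in `ℤ/n`. -/
def Solvable {n : ℕ} (a : ℕ → ZMod n) (ℓ : ℕ) : Prop :=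
  ∃ t : ℕ → ℤ, (∀ i < ℓ - 1, |t i| ≤ (idx a (i + 1) : ℤ) ∧ Even (t i - (idx a (i + 1) : ℤ))) ∧
    (idx a (ℓ - 1) : ℤ) • a (ℓ - 1) +
      ∑ i ∈ Finset.range (ℓ - 1), (t i * (((idx a i / idx a (i + 1) : ℕ) : ℤ) - 1)) • a i = 0

/-- `w` is a Hamiltonian word of the subgroup `K`: it has `|K| - 1` letters and its `|K|` prefix sums
are exactly the elements of `K`. -/
def Ham {n : ℕ} (K : AddSubgroup (ZMod n)) (w : List (ZMod n)) : Prop :=
  w.length + 1 = Nat.card K ∧ (∀ j ≤ w.length, (w.take j).sum ∈ K) ∧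
    ∀ x ∈ K, ∃ j ≤ w.length, (w.take j).sum = x

end Pool.CHF
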