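import Pool.Agent.CHF.Defs
import Pool.Agent.CHF.Idx

open Finset

namespace Pool.CHF

open Pool.CTS

private theorem Odd_pick (m g : ℕ) (hm : Odd m) (hg : m ≤ g + 1) (k : ℤ) :
    ∃ t : ℤ, |t| ≤ (g : ℤ) ∧ Even (t - (g : ℤ)) ∧ (m : ℤ) ∣ k - t := by
  obtain ⟨r, hr⟩ := hm
  have hm0 : (0 : ℤ) < m := by omega
  set u : ℤ := ((k + g) * (r + 1)) % (m : ℤ) with hu
  have h0 : 0 ≤ u := Int.emod_nonneg _ (by omega)
  have h1 : u < m := Int.emod_lt_of_pos _ hm0
  refine ⟨-(g : ℤ) + 2 * u, ?_, ?_, ?_⟩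
  · rw [abs_le]
    constructor
    · omega
    · omega
  · exact ⟨u - g, by ring⟩
  · have h2 : (m : ℤ) ∣ (k + g) * (r + 1) - u := by
      rw [hu]
      exact Int.dvd_self_sub_emod
    obtain ⟨c, hc⟩ := h2
    refine ⟨2 * c - (k + g), ?_⟩
    have h3 : (m : ℤ) = 2 * r + 1 := by exact_mod_cast hr
    have h4 : u = (k + g) * (r + 1) - m * c := by linarith
    rw [h4]
    linear_combination (k + g : ℤ) * h3

/-! ## Module Odd (size 3; uses idx_mul)
Downward recursion: R ∈ H a (i+1) (start: i + 1 = ℓ - 1, R = idx a (ℓ-1) • a (ℓ-1), which lies in H a (ℓ-1)); find t i with R + t i (m-1) a i ∈ H a i, i.e.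
R - t i a i ∈ H a i (m a i ∈ H a i), m = idx a i / idx a (i+1) odd: R = s a i mod H a i, need t i ≡ s mod m, t i ≡ g mod 2, |t i| ≤ g, g = idx a (i+1), m ≤ g + 1: the numbers
-g, -g+2, …, g contain a complete residue system mod m since m is odd and g + 1 ≥ m. At the end R ∈ H a 0 = ⊥. -/
theorem odd_solvable {n : ℕ} [NeZero n] (a : ℕ → ZMod n) (ℓ : ℕ) (hℓ : 1 ≤ ℓ)
    (htop : H a ℓ = ⊤) (ha : ∀ i < ℓ, a i ∉ H a i) (hodd : Odd (n / idx a (ℓ - 1)))
    (hm : ∀ i < ℓ - 1, idx a i / idx a (i + 1) ≤ idx a (i + 1) + 1) : Solvable a ℓ := by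
  set L := ℓ - 1 with hL
  have hLl : L + 1 = ℓ := by omega
  have hpos : ∀ i, 0 < idx a i := by
    intro i
    have h1 := card_mul_idx a i
    have h2 : n ≠ 0 := NeZero.ne n
    rcases Nat.eq_zero_or_pos (idx a i) with h | h
    · rw [h, mul_zero] at h1
      exact absurd h1.symm h2
    · exact h
  have hmono : ∀ i j, i ≤ j → H a i ≤ H a j := by
    intro i j hij
    unfold H
    apply AddSubgroup.closure_mono
    rintro _ ⟨k, hk, rfl⟩
    exact ⟨k, lt_of_lt_of_le hk hij, rfl⟩
  have hdvd : ∀ i j, i ≤ j → idx a j ∣ idx a i := by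
    intro i j hij
    exact AddSubgroup.index_dvd_of_le (hmono i j hij)
  have hoddm : ∀ i < L, Odd (idx a i / idx a (i + 1)) := by
    intro i hi
    obtain ⟨q, hq⟩ := hdvd (i + 1) L hi
    have h1 := (idx_mul a i (ha i (by omega))).2.1
    have h2 := card_mul_idx a i
    have h3 : n / idx a L = Nat.card (H a i) * q * (idx a i / idx a (i + 1)) := by
      apply Nat.div_eq_of_eq_mul_left (hpos L)
      calc n = Nat.card (H a i) * idx a i := h2.symm
        _ = Nat.card (H a i) * (idx a i / idx a (i + 1) * (idx a L * q)) := by rw [← hq, ← h1]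
        _ = _ := by ring
    rw [h3] at hodd
    exact (Nat.odd_mul.1 hodd).2
  have hL1 : idx a (L + 1) = 1 := by
    unfold idx
    rw [hLl, htop]
    exact AddSubgroup.index_top
  have key : ∀ d j, d ≤ L → j = L - d → ∃ t : ℕ → ℤ,
      (∀ i, j ≤ i → i < L → |t i| ≤ (idx a (i + 1) : ℤ) ∧ Even (t i - (idx a (i + 1) : ℤ))) ∧
      (idx a L : ℤ) • a L +
        ∑ i ∈ Finset.Ico j L, (t i * (((idx a i / idx a (i + 1) : ℕ) : ℤ) - 1)) • a i ∈ H a j := by
    intro d
    induction d with
    | zero =>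
      intro j _ hj
      rw [Nat.sub_zero] at hj
      subst hj
      refine ⟨fun _ => 0, fun i h1 h2 => absurd h2 (by omega), ?_⟩
      rw [Finset.Ico_self, Finset.sum_empty, add_zero]
      have h1 := (idx_mul a L (ha L (by omega))).2.2.2.1 (idx a L : ℤ)
      rw [h1, hL1, Nat.div_one]
    | succ d ih =>
      intro j hd hjd
      have hj : j < L := by omega
      obtain ⟨t, ht, hR⟩ := ih (j + 1) (by omega) (by omega)
      obtain ⟨k, hk, hkR⟩ := (idx_mul a j (ha j (by omega))).2.2.2.2 _ hR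
      obtain ⟨u, hu1, hu2, hu3⟩ := Odd_pick _ _ (hoddm j hj) (hm j hj) (k : ℤ)
      refine ⟨Function.update t j u, ?_, ?_⟩
      · intro i h1 h2
        rcases eq_or_lt_of_le h1 with h | h
        · subst h
          rw [Function.update_self]
          exact ⟨hu1, hu2⟩
        · rw [Function.update_of_ne (by omega)]
          exact ht i (by omega) h2
      · rw [Finset.sum_eq_sum_Ico_succ_bot hj, Function.update_self]
        have h1 : ∑ i ∈ Finset.Ico (j + 1) L, (Function.update t j u i *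
            (((idx a i / idx a (i + 1) : ℕ) : ℤ) - 1)) • a i =
            ∑ i ∈ Finset.Ico (j + 1) L, (t i *
            (((idx a i / idx a (i + 1) : ℕ) : ℤ) - 1)) • a i := by
          apply Finset.sum_congr rfl
          intro i hi
          rw [Finset.mem_Ico] at hi
          rw [Function.update_of_ne (by omega)]
        rw [h1]
        have h2 : ((k : ℤ) + u * (((idx a j / idx a (j + 1) : ℕ) : ℤ) - 1)) • a j ∈ H a j := by
          rw [(idx_mul a j (ha j (by omega))).2.2.2.1]
          obtain ⟨c, hc⟩ := hu3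
          refine ⟨u + c, ?_⟩
          linear_combination hc
        have h3 := (H a j).add_mem hkR h2
        have h4 : (idx a L : ℤ) • a L + ∑ i ∈ Finset.Ico (j + 1) L, (t i *
            (((idx a i / idx a (i + 1) : ℕ) : ℤ) - 1)) • a i - k • a j +
            ((k : ℤ) + u * (((idx a j / idx a (j + 1) : ℕ) : ℤ) - 1)) • a j =
            (idx a L : ℤ) • a L + ((u * (((idx a j / idx a (j + 1) : ℕ) : ℤ) - 1)) • a j +
            ∑ i ∈ Finset.Ico (j + 1) L, (t i *
            (((idx a i / idx a (i + 1) : ℕ) : ℤ) - 1)) • a i) := by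
          have h5 : (k : ℤ) • a j = k • a j := natCast_zsmul _ _
          rw [add_smul, h5]
          generalize ∑ i ∈ Finset.Ico (j + 1) L, (t i *
            (((idx a i / idx a (i + 1) : ℕ) : ℤ) - 1)) • a i = S
          generalize (u * (((idx a j / idx a (j + 1) : ℕ) : ℤ) - 1)) • a j = W
          generalize (idx a L : ℤ) • a L = V
          generalize k • a j = U
          abel
        rw [h4] at h3
        exact h3
  obtain ⟨t, ht, hR⟩ := key L 0 le_rfl (by omega)
  refine ⟨t, fun i hi => ht i (Nat.zero_le _) hi, ?_⟩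
  have h0 : H a 0 = ⊥ := by
    unfold H
    simp
  rw [h0, AddSubgroup.mem_bot, Nat.Ico_zero_eq_range] at hR
  exact hR

end Pool.CHF
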