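import Pool.Agent.CHF.Defs
import Pool.Agent.CHF.Idx

open Finset

namespace Pool.CHF

open Pool.CTS

/-! ## Module Wd (size 3; uses idx_mul): Hamiltonian words
Induction on i. For i = 0: H = ⊥, empty words. Step: choose signs σ_1..σ_k = ±1 with sum t i (possible: |t i| ≤ k, same parity), take k * m words of level i
(m = idx a i / idx a (i+1)) from the induction hypothesis, in groups of m: w_1 ++ [σ a i] ++ w_2 ++ … ++ [σ a i] ++ w_m is Hamiltonian for H a (i+1). -/
private def Wd_G {n : ℕ} (b : ZMod n) (w : List (ZMod n)) : List (List (ZMod n)) → List (ZMod n)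
  | [] => w
  | w' :: r => w ++ b :: Wd_G b w' r

private theorem Wd_len {n : ℕ} (b : ZMod n) (L : ℕ) (r : List (List (ZMod n))) :
    ∀ w : List (ZMod n), (∀ v ∈ w :: r, v.length + 1 = L) →
      (Wd_G b w r).length + 1 = (r.length + 1) * L := by
  induction r with
  | nil =>
    intro w hw
    have := hw w (by simp)
    simp only [Wd_G, List.length_nil]
    omega
  | cons w' r ih =>
    intro w hw
    have h1 := hw w (by simp)
    have h2 := ih w' (fun v hv => hw v (List.mem_cons_of_mem _ hv))
    simp only [Wd_G, List.length_append, List.length_cons]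
    have h3 : (r.length + 1 + 1) * L = (r.length + 1) * L + L := by ring
    rw [h3, ← h2]
    omega

private theorem Wd_sum {n : ℕ} (b : ZMod n) (r : List (List (ZMod n))) :
    ∀ w : List (ZMod n), (Wd_G b w r).sum = ((w :: r).map List.sum).sum + r.length • b := by
  induction r with
  | nil =>
    intro w
    simp [Wd_G]
  | cons w' r ih =>
    intro w
    rw [Wd_G, List.sum_append, List.sum_cons, ih w']
    simp only [List.map_cons, List.sum_cons, List.length_cons, add_smul, one_smul]
    abel

private theorem Wd_cost {n : ℕ} (c : ZMod n → ℝ) (b : ZMod n) (r : List (List (ZMod n))) :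
    ∀ w : List (ZMod n), ((Wd_G b w r).map c).sum =
      ((w :: r).map fun w => (w.map c).sum).sum + r.length * c b := by
  induction r with
  | nil =>
    intro w
    simp [Wd_G]
  | cons w' r ih =>
    intro w
    rw [Wd_G, List.map_append, List.sum_append, List.map_cons, List.sum_cons, ih w']
    simp only [List.map_cons, List.sum_cons, List.length_cons]
    push_cast
    ring

private theorem Wd_mem {n : ℕ} (b : ZMod n) (r : List (List (ZMod n))) :
    ∀ w : List (ZMod n), ∀ y ∈ Wd_G b w r, y = b ∨ ∃ v ∈ w :: r, y ∈ v := by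
  induction r with
  | nil =>
    intro w y hy
    exact Or.inr ⟨w, by simp, hy⟩
  | cons w' r ih =>
    intro w y hy
    rw [Wd_G, List.mem_append, List.mem_cons] at hy
    rcases hy with h | h | h
    · exact Or.inr ⟨w, by simp, h⟩
    · exact Or.inl h
    · rcases ih w' y h with h1 | ⟨v, hv, h1⟩
      · exact Or.inl h1
      · exact Or.inr ⟨v, List.mem_cons_of_mem _ hv, h1⟩

private theorem Wd_cover {n : ℕ} (K : AddSubgroup (ZMod n)) (b : ZMod n)
    (r : List (List (ZMod n))) :
    ∀ (w : List (ZMod n)), (∀ v ∈ w :: r, Ham K v) → ∀ (l : ℕ) (x : ZMod n), l ≤ r.length →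
      x - l • b ∈ K → ∃ j ≤ (Wd_G b w r).length, ((Wd_G b w r).take j).sum = x := by
  induction r with
  | nil =>
    intro w hw l x hl hx
    have hl0 : l = 0 := by simpa using hl
    subst hl0
    rw [zero_smul, sub_zero] at hx
    exact (hw w (by simp)).2.2 x hx
  | cons w' r ih =>
    intro w hw l x hl hx
    rcases Nat.eq_zero_or_pos l with h0 | h0
    · subst h0
      rw [zero_smul, sub_zero] at hx
      obtain ⟨j, hj, hjx⟩ := (hw w (by simp)).2.2 x hx
      refine ⟨j, ?_, ?_⟩
      · rw [Wd_G, List.length_append]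
        omega
      · rw [Wd_G, List.take_append_of_le_length hj, hjx]
    · obtain ⟨l', rfl⟩ : ∃ l', l = l' + 1 := ⟨l - 1, by omega⟩
      have hws : w.sum ∈ K := by
        have := (hw w (by simp)).2.1 w.length le_rfl
        rwa [List.take_length] at this
      obtain ⟨j, hj, hjx⟩ := ih w' (fun v hv => hw v (List.mem_cons_of_mem _ hv)) l'
        (x - w.sum - b) (by simpa using hl) (by
          have h1 : x - w.sum - b - l' • b = (x - (l' + 1) • b) - w.sum := by
            rw [add_smul, one_smul]; abel
          rw [h1]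
          exact K.sub_mem hx hws)
      refine ⟨w.length + (j + 1), ?_, ?_⟩
      · rw [Wd_G, List.length_append, List.length_cons]
        omega
      · rw [Wd_G, List.take_length_add_append, List.take_succ_cons, List.sum_append,
          List.sum_cons, hjx]
        abel

private theorem Wd_letter {n : ℕ} (K : AddSubgroup (ZMod n)) (w : List (ZMod n)) :
    (∀ j ≤ w.length, (w.take j).sum ∈ K) → ∀ y ∈ w, y ∈ K := by
  induction w with
  | nil => intro _ y hy; simp at hy
  | cons z v ih =>
    intro h y hy
    have hz : z ∈ K := by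
      have := h 1 (by simp)
      simpa using this
    rcases List.mem_cons.1 hy with rfl | hy
    · exact hz
    · refine ih (fun j hj => ?_) y hy
      have := h (j + 1) (by simpa using hj)
      rw [List.take_succ_cons, List.sum_cons] at this
      have h2 := K.sub_mem this hz
      rwa [add_sub_cancel_left] at h2

private theorem Wd_ham {n : ℕ} (K K' : AddSubgroup (ZMod n)) (b : ZMod n) (m : ℕ)
    (hKK : K ≤ K') (hb : b ∈ K') (hcard : Nat.card K' = m * Nat.card K)
    (hdec : ∀ x ∈ K', ∃ l < m, x - l • b ∈ K) (w : List (ZMod n)) (r : List (List (ZMod n)))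
    (hr : r.length + 1 = m) (hw : ∀ v ∈ w :: r, Ham K v) : Ham K' (Wd_G b w r) := by
  refine ⟨?_, ?_, ?_⟩
  · rw [Wd_len b (Nat.card K) r w (fun v hv => (hw v hv).1), hr, hcard]
  · intro j _
    apply AddSubgroup.list_sum_mem
    intro y hy
    rcases Wd_mem b r w y (List.mem_of_mem_take hy) with rfl | ⟨v, hv, hyv⟩
    · exact hb
    · exact hKK (Wd_letter K v (hw v hv).2.1 y hyv)
  · intro x hx
    obtain ⟨l, hl, hxl⟩ := hdec x hx
    exact Wd_cover K b r w hw l x (by omega) hxl

private theorem Wd_group {n : ℕ} (K K' : AddSubgroup (ZMod n)) (a0 : ZMod n) (m : ℕ) (hm : 1 ≤ m)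
    (hKK : K ≤ K') (ha : a0 ∈ K') (hcard : Nat.card K' = m * Nat.card K)
    (hdec : ∀ x ∈ K', ∃ l < m, x - l • a0 ∈ K) (c : ZMod n → ℝ) (hcs : ∀ x, c (-x) = c x)
    (k : ℕ) : ∀ (τ : ℤ) (W' : List (List (ZMod n))), W'.length = k * m → |τ| ≤ (k : ℤ) →
      Even (τ - (k : ℤ)) → (∀ w ∈ W', Ham K w) →
      ∃ W : List (List (ZMod n)), W.length = k ∧ (∀ w ∈ W, Ham K' w) ∧
        (W.map List.sum).sum = (W'.map List.sum).sum + (τ * ((m : ℤ) - 1)) • a0 ∧
        (W.map fun w => (w.map c).sum).sum =
          (W'.map fun w => (w.map c).sum).sum + (k : ℝ) * ((m : ℝ) - 1) * c a0 := by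
  induction k with
  | zero =>
    intro τ W' hlen hτ _ _
    have h1 : W' = [] := List.eq_nil_of_length_eq_zero (by simpa using hlen)
    have h2 : τ = 0 := by
      have : |τ| ≤ 0 := by simpa using hτ
      exact abs_nonpos_iff.1 this
    subst h1 h2
    exact ⟨[], rfl, by simp, by simp, by simp⟩
  | succ k ih =>
    intro τ W' hlen hτ hpar hW'
    obtain ⟨σ, hσ, hσ1, hσ2⟩ : ∃ σ : ℤ, (σ = 1 ∨ σ = -1) ∧ |τ - σ| ≤ (k : ℤ) ∧
        Even (τ - σ - (k : ℤ)) := by
      rw [abs_le] at hτ
      obtain ⟨e, he⟩ := hpar
      push_cast at hτ he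
      rcases le_or_gt 0 τ with h0 | h0
      · refine ⟨1, Or.inl rfl, ?_, ⟨e, by linarith⟩⟩
        rw [abs_le]
        constructor
        · omega
        · omega
      · refine ⟨-1, Or.inr rfl, ?_, ⟨e + 1, by linarith⟩⟩
        rw [abs_le]
        constructor
        · omega
        · omega
    have hbmem : σ • a0 ∈ K' := K'.zsmul_mem ha σ
    have hbc : c (σ • a0) = c a0 := by
      rcases hσ with rfl | rfl
      · rw [one_smul]
      · rw [neg_smul, one_smul, hcs]
    have hbdec : ∀ x ∈ K', ∃ l < m, x - l • (σ • a0) ∈ K := by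
      intro x hx
      rcases hσ with rfl | rfl
      · rw [one_smul]
        exact hdec x hx
      · obtain ⟨l, hl, h1⟩ := hdec (-x) (K'.neg_mem hx)
        refine ⟨l, hl, ?_⟩
        have h2 := K.neg_mem h1
        have h3 : -(-x - l • a0) = x - l • ((-1 : ℤ) • a0) := by
          rw [neg_smul, one_smul, smul_neg]; abel
        rwa [h3] at h2
    have hlm : m ≤ W'.length := by
      rw [hlen, Nat.add_mul]
      omega
    have htl : (W'.take m).length = m := by
      rw [List.length_take]
      omega
    obtain ⟨w, r, hwr⟩ : ∃ w r, W'.take m = w :: r := by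
      cases h : W'.take m with
      | nil =>
        rw [h] at htl
        simp at htl
        omega
      | cons w r => exact ⟨w, r, rfl⟩
    have hrl : r.length + 1 = m := by
      rw [hwr] at htl
      simpa using htl
    have hmem1 : ∀ v ∈ w :: r, Ham K v := by
      intro v hv
      rw [← hwr] at hv
      exact hW' v (List.mem_of_mem_take hv)
    obtain ⟨W, hW1, hW2, hW3, hW4⟩ := ih (τ - σ) (W'.drop m) (by
      rw [List.length_drop, hlen, Nat.add_mul]
      omega) hσ1 hσ2 (fun v hv => hW' v (List.mem_of_mem_drop hv))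
    have hsplit : W' = (w :: r) ++ W'.drop m := by
      rw [← hwr, List.take_append_drop]
    have hcast : (r.length : ℤ) = (m : ℤ) - 1 := by
      rw [← hrl]; push_cast; ring
    have hcastR : (r.length : ℝ) = (m : ℝ) - 1 := by
      rw [← hrl]; push_cast; ring
    refine ⟨Wd_G (σ • a0) w r :: W, by rw [List.length_cons, hW1], ?_, ?_, ?_⟩
    · intro v hv
      rcases List.mem_cons.1 hv with rfl | hv
      · exact Wd_ham K K' (σ • a0) m hKK hbmem hcard hbdec w r hrl hmem1
      · exact hW2 v hv
    · have h1 : (W'.map List.sum).sum = ((w :: r).map List.sum).sum +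
          ((W'.drop m).map List.sum).sum := by
        conv_lhs => rw [hsplit]
        rw [List.map_append, List.sum_append]
      rw [List.map_cons, List.sum_cons, Wd_sum, hW3, h1]
      have h2 : r.length • σ • a0 = (σ * ((m : ℤ) - 1)) • a0 := by
        rw [← natCast_zsmul, smul_smul, hcast, mul_comm]
      rw [h2, sub_mul, sub_smul]
      abel
    · have h1 : (W'.map fun w => (w.map c).sum).sum = ((w :: r).map fun w => (w.map c).sum).sum +
          ((W'.drop m).map fun w => (w.map c).sum).sum := by
        conv_lhs => rw [hsplit]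
        rw [List.map_append, List.sum_append]
      rw [List.map_cons, List.sum_cons, Wd_cost, hW4, h1, hbc, hcastR]
      push_cast
      ring

private theorem Wd_mono {n : ℕ} (a : ℕ → ZMod n) {i j : ℕ} (h : i ≤ j) : H a i ≤ H a j := by
  unfold H
  apply AddSubgroup.closure_mono
  rintro _ ⟨l, hl, rfl⟩
  exact ⟨l, lt_of_lt_of_le hl h, rfl⟩

theorem words {n : ℕ} [NeZero n] (c : ZMod n → ℝ) (hcs : ∀ x, c (-x) = c x) (a : ℕ → ZMod n)
    (i : ℕ) (ha : ∀ j < i, a j ∉ H a j) (k : ℕ) (t : ℕ → ℤ)
    (ht : ∀ j < i, |t j| ≤ ((k * (idx a (j + 1) / idx a i) : ℕ) : ℤ) ∧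
      Even (t j - ((k * (idx a (j + 1) / idx a i) : ℕ) : ℤ))) :
    ∃ W : List (List (ZMod n)), W.length = k ∧ (∀ w ∈ W, Ham (H a i) w) ∧
      (W.map List.sum).sum =
        ∑ j ∈ Finset.range i, (t j * (((idx a j / idx a (j + 1) : ℕ) : ℤ) - 1)) • a j ∧
      (W.map fun w => (w.map c).sum).sum =
        ∑ j ∈ Finset.range i, (k : ℝ) * (((idx a j : ℝ) - idx a (j + 1)) / idx a i) * c (a j) := by
  induction i generalizing k with
  | zero =>
    refine ⟨List.replicate k [], List.length_replicate, ?_, ?_, ?_⟩
    · intro w hw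
      rw [List.eq_of_mem_replicate hw]
      have hH : H a 0 = ⊥ := by
        unfold H
        have h : (a '' {j | j < 0}) = ∅ := by
          ext x; simp
        rw [h, AddSubgroup.closure_empty]
      rw [hH]
      refine ⟨by simp, ?_, ?_⟩
      · intro j _
        simp
      · intro x hx
        refine ⟨0, le_rfl, ?_⟩
        rw [AddSubgroup.mem_bot] at hx
        simp [hx]
    · simp
    · simp
  | succ i ih =>
    have hai := ha i (Nat.lt_succ_self i)
    obtain ⟨hm2, hgi, hg1, -, hdec⟩ := idx_mul a i hai
    set m := idx a i / idx a (i + 1) with hm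
    have hdiv : ∀ j < i, k * m * (idx a (j + 1) / idx a i) =
        k * (idx a (j + 1) / idx a (i + 1)) := by
      intro j hj
      have hd : idx a i ∣ idx a (j + 1) := by
        unfold idx
        exact AddSubgroup.index_dvd_of_le (Wd_mono a hj)
      obtain ⟨q, hq⟩ := hd
      have hgi0 : 0 < idx a i := by
        rw [hgi]
        exact Nat.mul_pos (by omega) hg1
      have h1 : idx a (j + 1) / idx a i = q := by
        rw [hq]
        exact Nat.mul_div_cancel_left q hgi0
      have h2 : idx a (j + 1) / idx a (i + 1) = m * q := by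
        rw [hq, hgi]
        have h3 : m * idx a (i + 1) * q = m * q * idx a (i + 1) := by ring
        rw [h3]
        exact Nat.mul_div_cancel _ hg1
      rw [h1, h2]
      ring
    obtain ⟨W', h1, h2, h3, h4⟩ := ih (fun j hj => ha j (Nat.lt_succ_of_lt hj)) (k * m)
      (fun j hj => by
        rw [hdiv j hj]
        exact ht j (Nat.lt_succ_of_lt hj))
    have hti := ht i (Nat.lt_succ_self i)
    rw [Nat.div_self hg1, mul_one] at hti
    have hmem : a i ∈ H a (i + 1) := by
      unfold H
      exact AddSubgroup.subset_closure ⟨i, Nat.lt_succ_self i, rfl⟩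
    have hcard : Nat.card (H a (i + 1)) = m * Nat.card (H a i) := by
      have e1 := card_mul_idx a i
      have e2 := card_mul_idx a (i + 1)
      have e3 : Nat.card (H a (i + 1)) * idx a (i + 1) = m * Nat.card (H a i) * idx a (i + 1) := by
        refine e2.trans (e1.symm.trans ?_)
        rw [hgi]
        ring
      exact Nat.eq_of_mul_eq_mul_right hg1 e3
    obtain ⟨W, g1, g2, g3, g4⟩ := Wd_group (H a i) (H a (i + 1)) (a i) m (by omega)
      (Wd_mono a (Nat.le_succ i)) hmem hcard hdec c hcs k (t i) W' h1 hti.1 hti.2 h2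
    refine ⟨W, g1, g2, ?_, ?_⟩
    · rw [g3, h3, Finset.sum_range_succ, ← hm]
    · rw [g4, h4, Finset.sum_range_succ]
      have hmR : (idx a i : ℝ) = m * idx a (i + 1) := by
        exact_mod_cast hgi
      have hgR : (0 : ℝ) < idx a (i + 1) := by exact_mod_cast hg1
      have hmR0 : (0 : ℝ) < m := by
        have : 0 < m := by omega
        exact_mod_cast this
      congr 1
      · apply Finset.sum_congr rfl
        intro j _
        rw [hmR]
        push_cast
        field_simp
      · rw [hmR]
        field_simp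

end Pool.CHF
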