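import Pool.Agent.CHF.Defs
import Pool.Agent.CHF.Wd
import Pool.Agent.CHF.Idx
import Pool.Agent.CTS.Wrd

open Finset

namespace Pool.CHF

open Pool.CTS

private theorem Up_sum {n : ℕ} {K : AddSubgroup (ZMod n)} {w : List (ZMod n)} (h : Ham K w) :
    w.sum ∈ K := by
  have := h.2.1 w.length le_rfl
  rwa [List.take_length] at this

private def Up_flat {n : ℕ} (b : ZMod n) : List (List (ZMod n)) → List (ZMod n)
  | [] => []
  | v :: W => v ++ (b :: Up_flat b W)

private theorem Up_flat_length {n : ℕ} (b : ZMod n) (K : AddSubgroup (ZMod n))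
    (W : List (List (ZMod n))) (hW : ∀ w ∈ W, Ham K w) :
    (Up_flat b W).length = W.length * Nat.card K := by
  induction W with
  | nil => simp [Up_flat]
  | cons v W ih =>
    have h1 := (hW v (by simp)).1
    have h2 := ih (fun w hw => hW w (by simp [hw]))
    rw [Up_flat, List.length_append, List.length_cons, List.length_cons, h2, ← h1]
    ring

private theorem Up_flat_sum {n : ℕ} (b : ZMod n) (W : List (List (ZMod n))) :
    (Up_flat b W).sum = (W.map List.sum).sum + (W.length : ℤ) • b := by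
  induction W with
  | nil => simp [Up_flat]
  | cons v W ih =>
    rw [Up_flat, List.sum_append, List.sum_cons, ih, List.map_cons, List.sum_cons,
      List.length_cons]
    push_cast
    rw [add_smul, one_smul]
    abel

private theorem Up_flat_cost {n : ℕ} (c : ZMod n → ℝ) (b : ZMod n) (W : List (List (ZMod n))) :
    ((Up_flat b W).map c).sum = (W.map fun w => (w.map c).sum).sum + (W.length : ℝ) * c b := by
  induction W with
  | nil => simp [Up_flat]
  | cons v W ih =>
    rw [Up_flat, List.map_append, List.sum_append, List.map_cons, List.sum_cons, ih, List.map_cons,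
      List.sum_cons, List.length_cons]
    push_cast
    ring

private theorem Up_flat_visit {n : ℕ} (b : ZMod n) (K : AddSubgroup (ZMod n))
    (W : List (List (ZMod n))) (hW : ∀ w ∈ W, Ham K w) (k : ℕ) (hk : k < W.length) (x : ZMod n)
    (hx : x - k • b ∈ K) :
    ∃ j < (Up_flat b W).length, ((Up_flat b W).take j).sum = x := by
  induction W generalizing k x with
  | nil => simp at hk
  | cons v W ih =>
    have hv := hW v (by simp)
    rcases k with _ | k
    · rw [zero_smul, sub_zero] at hx
      obtain ⟨j, hj, hjx⟩ := hv.2.2 x hx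
      refine ⟨j, ?_, ?_⟩
      · rw [Up_flat, List.length_append, List.length_cons]
        omega
      · rw [Up_flat, List.take_append_of_le_length hj, hjx]
    · have hx' : (x - (v.sum + b)) - k • b ∈ K := by
        have h1 : (x - (v.sum + b)) - k • b = (x - (k + 1) • b) - v.sum := by
          rw [add_smul, one_smul]
          abel
        rw [h1]
        exact K.sub_mem hx (Up_sum hv)
      obtain ⟨j, hj, hjx⟩ := ih (fun w hw => hW w (by simp [hw])) k
        (by rw [List.length_cons] at hk; omega) _ hx'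
      refine ⟨v.length + (j + 1), ?_, ?_⟩
      · rw [Up_flat, List.length_append, List.length_cons]
        omega
      · rw [Up_flat, List.take_length_add_append, List.sum_append, List.take_succ_cons,
          List.sum_cons, hjx]
        abel

private theorem Up_neg {n : ℕ} {K : AddSubgroup (ZMod n)} {w : List (ZMod n)} (h : Ham K w) :
    Ham K (w.reverse.map Neg.neg) ∧ (w.reverse.map Neg.neg).sum = -w.sum := by
  have hneg : ∀ v : List (ZMod n), (v.map Neg.neg).sum = -v.sum := by
    intro v
    induction v with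
    | nil => simp
    | cons b v ih => rw [List.map_cons, List.sum_cons, ih, List.sum_cons]; abel
  have hlen : (w.reverse.map Neg.neg).length = w.length := by simp
  have htake : ∀ j ≤ w.length, ((w.reverse.map Neg.neg).take j).sum =
      (w.take (w.length - j)).sum - w.sum := by
    intro j hj
    rw [← List.map_take, hneg, List.take_reverse, List.sum_reverse]
    have h1 : w.sum = (w.take (w.length - j)).sum + (w.drop (w.length - j)).sum := by
      rw [← List.sum_append, List.take_append_drop]
    rw [h1]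
    abel
  refine ⟨⟨?_, ?_, ?_⟩, ?_⟩
  · rw [hlen]; exact h.1
  · intro j hj
    rw [hlen] at hj
    rw [htake j hj]
    exact K.sub_mem (h.2.1 _ (by omega)) (Up_sum h)
  · intro x hx
    obtain ⟨j, hj, hjx⟩ := h.2.2 (x + w.sum) (K.add_mem hx (Up_sum h))
    refine ⟨w.length - j, by rw [hlen]; omega, ?_⟩
    rw [htake _ (by omega), show w.length - (w.length - j) = j by omega, hjx]
    abel
  · rw [hneg, List.sum_reverse]

private theorem Up_idx_dvd {n : ℕ} [NeZero n] (a : ℕ → ZMod n) {i j : ℕ} (h : i ≤ j) :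
    idx a j ∣ idx a i :=
  AddSubgroup.index_dvd_of_le (AddSubgroup.closure_mono (Set.image_mono (fun k (hk : k < i) => by
    show k < j
    omega)))

private theorem Up_top {n : ℕ} [NeZero n] (c : ZMod n → ℝ)
    (a : ℕ → ZMod n) (ℓ : ℕ) (hc : IsChain c a ℓ) :
    1 ≤ idx a (ℓ - 1) ∧ ∀ x, ∃ k < idx a (ℓ - 1), x - k • a (ℓ - 1) ∈ H a (ℓ - 1) := by
  obtain ⟨hℓ, htop, hcc⟩ := hc
  obtain ⟨h1, h2, h3, h4, h5⟩ := idx_mul a (ℓ - 1) (hcc (ℓ - 1) (by omega)).1
  rw [show ℓ - 1 + 1 = ℓ by omega] at h1 h2 h3 h4 h5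
  have htop' : idx a ℓ = 1 := by
    unfold idx
    rw [htop, AddSubgroup.index_top]
  rw [htop', Nat.div_one] at h1 h5
  exact ⟨by omega, fun x => h5 x (by rw [htop]; trivial)⟩

/-! ## Module Up (size 2; uses words; tour_of_word of Pool/Agent/CTS/Wrd.lean)
top level: K = H a (ℓ-1), g = idx a (ℓ-1): words w_1..w_g of K (k = g in `words`), the word w_1 ++ [a (ℓ-1)] ++ … ++ w_g ++ [a (ℓ-1)] has length n, sum 0 and visits
everything. Case g = 2: w ++ [b] ++ w' ++ [-b] with w' = (w.reverse.map Neg.neg), b = a (ℓ-1) (w' is Hamiltonian for K: its prefix sums are (prefix sum of w) - w.sum). -/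
theorem upper {n : ℕ} [NeZero n] (hn : 3 ≤ n) (c : ZMod n → ℝ) (hcs : ∀ x, c (-x) = c x)
    (a : ℕ → ZMod n) (ℓ : ℕ) (hc : IsChain c a ℓ) (hS : Solvable a ℓ) :
    ∃ f : ZMod n ≃ ZMod n, tourCost c f = chainBound c a ℓ := by
  obtain ⟨t, ht, hsum⟩ := hS
  obtain ⟨hg1, hcov⟩ := Up_top c a ℓ hc
  set g := idx a (ℓ - 1) with hg
  set b := a (ℓ - 1) with hb
  have hgR : (g : ℝ) ≠ 0 := by
    have : (0 : ℝ) < g := by exact_mod_cast hg1
    exact this.ne'
  have hdiv : ∀ j < ℓ - 1, g * (idx a (j + 1) / g) = idx a (j + 1) := by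
    intro j hj
    exact Nat.mul_div_cancel' (Up_idx_dvd a (by omega))
  obtain ⟨W, hWl, hWH, hWs, hWc⟩ := words c hcs a (ℓ - 1) (fun j hj => (hc.2.2 j (by omega)).1) g t
    (fun j hj => by rw [hdiv j hj]; exact ht j hj)
  obtain ⟨f, hf⟩ := tour_of_word c (Up_flat b W) (by
    rw [Up_flat_length b _ W hWH, hWl, mul_comm]
    exact card_mul_idx a (ℓ - 1)) (by
    rw [Up_flat_sum, hWs, hWl, add_comm]
    exact hsum) (by
    intro x
    obtain ⟨k, hk, hkx⟩ := hcov x
    obtain ⟨j, hj, hjx⟩ := Up_flat_visit b _ W hWH k (by rw [hWl]; exact hk) x hkx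
    refine ⟨j, ?_, hjx⟩
    rw [Up_flat_length b _ W hWH, hWl, mul_comm] at hj
    rwa [← card_mul_idx a (ℓ - 1)])
  refine ⟨f, ?_⟩
  rw [hf, Up_flat_cost, hWc, hWl]
  unfold chainBound
  congr 1
  refine Finset.sum_congr rfl fun j _ => ?_
  rw [← hg, mul_div_cancel₀ _ hgR]

theorem upper_two {n : ℕ} [NeZero n] (hn : 3 ≤ n) (c : ZMod n → ℝ) (hcs : ∀ x, c (-x) = c x)
    (a : ℕ → ZMod n) (ℓ : ℕ) (hc : IsChain c a ℓ) (h2 : idx a (ℓ - 1) = 2) :
    ∃ f : ZMod n ≃ ZMod n, tourCost c f = chainBound c a ℓ := by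
  obtain ⟨hg1, hcov⟩ := Up_top c a ℓ hc
  set b := a (ℓ - 1) with hb
  obtain ⟨W, hWl, hWH, hWs, hWc⟩ := words c hcs a (ℓ - 1) (fun j hj => (hc.2.2 j (by omega)).1) 1
    (fun j => ((1 * (idx a (j + 1) / idx a (ℓ - 1)) : ℕ) : ℤ))
    (fun j hj => ⟨by rw [abs_of_nonneg (Int.natCast_nonneg _)], by rw [sub_self]; exact Even.zero⟩)
  obtain ⟨w, rfl⟩ := List.length_eq_one_iff.1 hWl
  have hw := hWH w (by simp)
  obtain ⟨hw', hws'⟩ := Up_neg hw
  set w' := w.reverse.map Neg.neg with hw'def
  have hcost' : (w'.map c).sum = (w.map c).sum := by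
    rw [hw'def, List.map_map, List.map_reverse, List.sum_reverse]
    congr 1
    apply List.map_congr_left
    intro x _
    exact hcs x
  have hcard := card_mul_idx a (ℓ - 1)
  rw [h2] at hcard hcov
  have hlen : (w ++ (b :: (w' ++ [-b]))).length = n := by
    have h1 := hw.1
    have h1' := hw'.1
    simp only [List.length_append, List.length_cons, List.length_nil]
    omega
  obtain ⟨f, hf⟩ := tour_of_word c (w ++ (b :: (w' ++ [-b]))) hlen (by
    rw [List.sum_append, List.sum_cons, List.sum_append, List.sum_singleton, hws']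
    abel) (by
    intro x
    obtain ⟨k, hk, hkx⟩ := hcov x
    have hl := hlen
    simp only [List.length_append, List.length_cons, List.length_nil] at hl
    rcases k with _ | k
    · rw [zero_smul, sub_zero] at hkx
      obtain ⟨j, hj, hjx⟩ := hw.2.2 x hkx
      exact ⟨j, by omega, by rw [List.take_append_of_le_length hj, hjx]⟩
    · have hk0 : k = 0 := by omega
      subst hk0
      rw [zero_add, one_smul] at hkx
      have hx' : x - (w.sum + b) ∈ H a (ℓ - 1) := by
        have h1 : x - (w.sum + b) = (x - b) - w.sum := by abel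
        rw [h1]
        exact (H a (ℓ - 1)).sub_mem hkx (Up_sum hw)
      obtain ⟨j, hj, hjx⟩ := hw'.2.2 _ hx'
      refine ⟨w.length + (j + 1), by omega, ?_⟩
      rw [List.take_length_add_append, List.sum_append, List.take_succ_cons, List.sum_cons,
        List.take_append_of_le_length hj, hjx]
      abel)
  refine ⟨f, ?_⟩
  rw [hf]
  simp only [List.map_append, List.map_cons, List.map_nil, List.sum_append, List.sum_cons,
    List.sum_nil, hcost', hcs]
  simp only [List.map_cons, List.map_nil, List.sum_cons, List.sum_nil, add_zero] at hWc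
  rw [hWc]
  unfold chainBound
  rw [h2]
  have h3 : ∑ j ∈ Finset.range (ℓ - 1),
      ((1 : ℕ) : ℝ) * (((idx a j : ℝ) - idx a (j + 1)) / ((2 : ℕ) : ℝ)) * c (a j) =
      (∑ j ∈ Finset.range (ℓ - 1), ((idx a j : ℝ) - idx a (j + 1)) * c (a j)) / 2 := by
    rw [Finset.sum_div]
    refine Finset.sum_congr rfl fun j _ => ?_
    push_cast
    ring
  rw [h3]
  push_cast
  ring

end Pool.CHF
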