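import Pool.Agent.CHF.Idx
import Pool.Agent.CHF.Low
import Pool.Agent.CHF.Conv
import Pool.Agent.CHF.Up
import Pool.Agent.CHF.Odd

open Finset

namespace Pool.CHF

open Pool.CTS

theorem main {n : ℕ} [NeZero n] (hn : 3 ≤ n) (c : ZMod n → ℝ) (hcs : ∀ x, c (-x) = c x)
    (a : ℕ → ZMod n) (ℓ : ℕ) (hc : IsChain c a ℓ) :
    (∀ f, chainBound c a ℓ ≤ tourCost c f) ∧
    (Solvable a ℓ ∨ idx a (ℓ - 1) = 2 → ∃ f, tourCost c f = chainBound c a ℓ) ∧
    ((∀ i < ℓ, ∀ x, x ∉ H a i → x ≠ a i → x ≠ -a i → c (a i) < c x) → idx a (ℓ - 1) ≠ 2 →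
      (∃ f, tourCost c f = chainBound c a ℓ) → Solvable a ℓ) ∧
    (Odd (n / idx a (ℓ - 1)) → (∀ i < ℓ - 1, idx a i / idx a (i + 1) ≤ idx a (i + 1) + 1) →
      Solvable a ℓ) := by
  refine ⟨fun f => lower c a ℓ hc f, ?_, ?_, ?_⟩
  · rintro (h | h)
    · exact upper hn c hcs a ℓ hc h
    · exact upper_two hn c hcs a ℓ hc h
  · rintro hs h2 ⟨f, hf⟩
    have hs' : ∀ i, i + 1 < ℓ → c (a i) < c (a (i + 1)) := by
      intro i hi
      have hmem : a i ∈ H a (i + 1) := AddSubgroup.subset_closure ⟨i, by simp, rfl⟩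
      have hni := (hc.2.2 (i + 1) hi).1
      have hle : H a i ≤ H a (i + 1) := AddSubgroup.closure_mono
        (Set.image_mono (fun j (hj : j < i) => by
          show j < i + 1
          omega))
      refine hs i (by omega) _ (fun h => hni (hle h)) ?_ ?_
      · intro h; rw [h] at hni; exact hni hmem
      · intro h; rw [h] at hni; exact hni (neg_mem hmem)
    have h3 : 3 ≤ idx a (ℓ - 1) := by
      have hℓ := hc.1
      have hℓ1 : ℓ - 1 < ℓ := by omega
      have h := idx_mul a (ℓ - 1) (hc.2.2 (ℓ - 1) hℓ1).1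
      have e : ℓ - 1 + 1 = ℓ := by omega
      have htop : idx a ℓ = 1 := by
        unfold idx
        rw [hc.2.1, AddSubgroup.index_top]
      rw [e, htop, Nat.div_one] at h
      omega
    exact conv hn c a ℓ hc hs hs' h3 f hf
  · intro hodd hm
    exact odd_solvable a ℓ hc.1 hc.2.1 (fun i hi => (hc.2.2 i hi).1) hodd hm

end Pool.CHF
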